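import Pool.Agent.H158_AM.Zf
import Pool.Agent.Y588.Pf

/-!
# Symmetric models with a generic copy of a labelled set: the conditions

The index set `X` is a set of the ground model with a function on it, the labels. The symmetric
model adds a set `a x` of mutually generic real numbers for each index `x`; the permutations of the
indices that preserve the labels act, and the supports are finite.
-/

set_option autoImplicit false
set_option linter.unreachableTactic false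
set_option linter.unusedTactic false
set_option linter.unusedSectionVars false

namespace Pool.Agent.H158_HM

open Pool.Agent.W868 Pool.Agent.W868.GM Pool.Agent.Y588
open Pool.Agent.H158_AM (SymSys Sy HS act mem_act Sn Nm truthS frc_fix frc_mono qmem_act qeq_act
  frc_act supp_fml supp_vec mk_sn chk_sn hs_iff sn_act isZF_nm sepS coverS sub_nm nm_trans)
open ZFSet (pair)

/-! ### Small facts -/

/-- A bit as a set. -/
noncomputable def bt (b : Bool) : ZFSet.{0} := nat (cond b 1 0)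

theorem bt_inj {a b : Bool} : bt a = bt b ↔ a = b := by
  constructor
  · intro h
    have := nat_injective h
    cases a <;> cases b <;> simp_all
  · rintro rfl
    rfl

theorem mem_succ {n : ℕ} {z : ZFSet.{0}} : z ∈ nat (n + 1) ↔ z = nat n ∨ z ∈ nat n :=
  ZFSet.mem_insert_iff

/-- The value of a set of pairs. -/
theorem ap_unique {g a b : ZFSet.{0}} (h : ∀ q, (q ∈ g ∧ fs q = a) ↔ q = pair a b) :
    ap g a = b := by
  have h1 : ZFSet.sep (fun q => fs q = a) g = {pair a b} := by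
    ext q
    rw [ZFSet.mem_sep, ZFSet.mem_singleton, h]
  have h2 : im sn ({pair a b} : ZFSet.{0}) = {b} := by
    ext z
    rw [mem_im, ZFSet.mem_singleton]
    constructor
    · rintro ⟨q, hq, rfl⟩
      rw [ZFSet.mem_singleton] at hq
      rw [hq, sn_pair]
    · rintro rfl
      exact ⟨pair a z, by simp, by rw [sn_pair]⟩
  rw [ap, h1, h2, ZFSet.sUnion_singleton]

/-- Change of one value. -/
theorem exists_mod {M : Set ZFSet.{0}} (hM : IsZF M) {f a b : ZFSet.{0}} (hf : f ∈ M) (ha : a ∈ M)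
    (hb : b ∈ M) : ∃ f' ∈ M, ap f' a = b ∧ ∀ c, c ≠ a → ap f' c = ap f c := by
  have hs : ZFSet.sep (fun u => ¬ fs u = a) f ∈ M := by
    refine hM.sep_mem ?_ hf
    exact (Dfn.eq (hM.fs' (DfnF.proj 0)) (DfnF.const ha)).not
  refine ⟨insert (pair a b) (ZFSet.sep (fun u => ¬ fs u = a) f),
    hM.insert_mem (hM.pair_mem ha hb) hs, ?_, ?_⟩
  · refine ap_unique fun q => ?_
    rw [ZFSet.mem_insert_iff, ZFSet.mem_sep]
    constructor
    · rintro ⟨h1 | h1, h2⟩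
      · exact h1
      · exact absurd h2 h1.2
    · rintro rfl
      exact ⟨Or.inl rfl, fs_pair _ _⟩
  · intro c hc
    unfold ap
    congr 2
    ext q
    rw [ZFSet.mem_sep, ZFSet.mem_sep, ZFSet.mem_insert_iff, ZFSet.mem_sep]
    constructor
    · rintro ⟨rfl | h1, h2⟩
      · rw [fs_pair] at h2
        exact absurd h2.symm hc
      · exact ⟨h1.1, h2⟩
    · rintro ⟨h1, rfl⟩
      exact ⟨Or.inr ⟨h1, hc⟩, rfl⟩

/-! ### Labelled sets -/

/-- A set with labels. -/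
structure Ix where
  /-- The elements. -/
  ι : Type
  /-- The elements as sets. -/
  c : ι → ZFSet.{0}
  /-- The labels. -/
  lb : ι → ZFSet.{0}
  inj : Function.Injective c

/-- The set of the elements. -/
noncomputable def Ix.gam (X : Ix) : ZFSet.{0} := ZFSet.range X.c

theorem mem_gam {X : Ix} {z : ZFSet.{0}} : z ∈ X.gam ↔ ∃ a, z = X.c a := by
  rw [Ix.gam, ZFSet.mem_range]
  constructor
  · rintro ⟨a, rfl⟩
    exact ⟨a, rfl⟩
  · rintro ⟨a, rfl⟩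
    exact ⟨a, rfl⟩

theorem code_mem {X : Ix} (a : X.ι) : X.c a ∈ X.gam := mem_gam.2 ⟨a, rfl⟩

theorem code_inj {X : Ix} {a b : X.ι} : X.c a = X.c b ↔ a = b :=
  ⟨fun h => X.inj h, fun h => by rw [h]⟩

/-- The set of the pairs of an element and its label. -/
noncomputable def Ix.lbz (X : Ix) : ZFSet.{0} := ZFSet.range fun a : X.ι => pair (X.c a) (X.lb a)

theorem mem_lbz {X : Ix} {z : ZFSet.{0}} : z ∈ X.lbz ↔ ∃ a, z = pair (X.c a) (X.lb a) := by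
  rw [Ix.lbz, ZFSet.mem_range]
  constructor
  · rintro ⟨a, rfl⟩
    exact ⟨a, rfl⟩
  · rintro ⟨a, rfl⟩
    exact ⟨a, rfl⟩

theorem ap_lbz {X : Ix} (a : X.ι) : ap X.lbz (X.c a) = X.lb a := by
  refine ap_unique fun q => ?_
  constructor
  · rintro ⟨h1, h2⟩
    obtain ⟨b, rfl⟩ := mem_lbz.1 h1
    rw [fs_pair, code_inj] at h2
    rw [h2]
  · rintro rfl
    exact ⟨mem_lbz.2 ⟨a, rfl⟩, by rw [fs_pair]⟩

/-- The labelled set is in the model. -/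
structure Ix.In (X : Ix) (M : Set ZFSet.{0}) : Prop where
  gam : X.gam ∈ M
  lbz : X.lbz ∈ M

/-- The indices of the generic real numbers. -/
abbrev J (X : Ix) : Type := X.ι × ℕ

section idx

variable {X : Ix}

theorem ais (σ : Equiv.Perm (J X)) (j : J X) : σ (σ⁻¹ j) = j := σ.apply_symm_apply j

theorem ias (σ : Equiv.Perm (J X)) (j : J X) : σ⁻¹ (σ j) = j := σ.symm_apply_apply j

/-- An index as a set. -/
noncomputable def ic (j : J X) : ZFSet.{0} := pair (X.c j.1) (nat j.2)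

theorem ic_inj {i j : J X} : ic i = ic j ↔ i = j := by
  unfold ic
  rw [ZFSet.pair_inj, code_inj]
  constructor
  · rintro ⟨h1, h2⟩
    exact Prod.ext h1 (nat_injective h2)
  · rintro rfl
    exact ⟨rfl, rfl⟩

variable (X) in
/-- The set of indices. -/
noncomputable def II : ZFSet.{0} := ZFSet.prod X.gam ZFSet.omega

theorem mem_II {i : ZFSet.{0}} : i ∈ (II X) ↔ ∃ j : J X, i = ic j := by
  rw [II, ZFSet.mem_prod]
  constructor
  · rintro ⟨a, ha, n, hn, rfl⟩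
    obtain ⟨a, rfl⟩ := mem_gam.1 ha
    obtain ⟨n, rfl⟩ := mem_omega_iff.1 hn
    exact ⟨(a, n), rfl⟩
  · rintro ⟨j, rfl⟩
    exact ⟨_, code_mem j.1, _, nat_mem_omega j.2, rfl⟩

/-- A bit of information. -/
noncomputable def el (j : J X) (m : ℕ) (b : Bool) : ZFSet.{0} := pair (pair (ic j) (nat m)) (bt b)

theorem el_inj {j j' : J X} {m m' : ℕ} {b b' : Bool} :
    el j m b = el j' m' b' ↔ j = j' ∧ m = m' ∧ b = b' := by
  unfold el
  rw [ZFSet.pair_inj, ZFSet.pair_inj, ic_inj, bt_inj, and_assoc]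
  constructor
  · rintro ⟨h1, h2, h3⟩
    exact ⟨h1, nat_injective h2, h3⟩
  · rintro ⟨rfl, rfl, rfl⟩
    exact ⟨rfl, rfl, rfl⟩

variable (X) in
/-- All bits of information. -/
noncomputable def BB : ZFSet.{0} := ZFSet.prod (ZFSet.prod (II X) ZFSet.omega) (nat 2)

theorem mem_two {z : ZFSet.{0}} : z ∈ nat 2 ↔ ∃ b, z = bt b := by
  change z ∈ insert (nat 1) (insert (nat 0) ∅) ↔ _
  rw [ZFSet.mem_insert_iff, ZFSet.mem_insert_iff]
  constructor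
  · rintro (rfl | rfl | h)
    · exact ⟨true, rfl⟩
    · exact ⟨false, rfl⟩
    · exact absurd h (ZFSet.notMem_empty _)
  · rintro ⟨b, rfl⟩
    cases b
    · exact Or.inr (Or.inl rfl)
    · exact Or.inl rfl

theorem mem_BB {u : ZFSet.{0}} : u ∈ (BB X) ↔ ∃ (j : J X) (m : ℕ) (b : Bool), u = el j m b := by
  rw [BB, ZFSet.mem_prod]
  constructor
  · rintro ⟨a, ha, c, hc, rfl⟩
    obtain ⟨i, hi, n, hn, rfl⟩ := ZFSet.mem_prod.1 ha
    obtain ⟨j, rfl⟩ := mem_II.1 hi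
    obtain ⟨m, rfl⟩ := mem_omega_iff.1 hn
    obtain ⟨b, rfl⟩ := mem_two.1 hc
    exact ⟨j, m, b, rfl⟩
  · rintro ⟨j, m, b, rfl⟩
    exact ⟨_, ZFSet.mem_prod.2 ⟨_, mem_II.2 ⟨j, rfl⟩, _, nat_mem_omega m, rfl⟩, _,
      mem_two.2 ⟨b, rfl⟩, rfl⟩

/-! ### Finite sets -/

/-- The set is finite. -/
def Fi (p : ZFSet.{0}) : Prop := {x | x ∈ p}.Finite

theorem nat_mem_iff {i n : ℕ} : nat i ∈ nat n ↔ i < n := by
  induction n with
  | zero => exact ⟨fun h => absurd h (ZFSet.notMem_empty _), fun h => absurd h (Nat.not_lt_zero _)⟩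
  | succ n ih =>
    rw [mem_succ, ih]
    constructor
    · rintro (h | h)
      · rw [nat_injective h]
        exact Nat.lt_succ_self n
      · omega
    · intro h
      rcases Nat.lt_succ_iff_lt_or_eq.1 h with h | h
      · exact Or.inr h
      · exact Or.inl (by rw [h])

theorem mem_nat {z : ZFSet.{0}} {n : ℕ} : z ∈ nat n ↔ ∃ i < n, z = nat i := by
  constructor
  · intro h
    obtain ⟨i, rfl⟩ := mem_omega_iff.1 (nat_subset_omega h)
    exact ⟨i, nat_mem_iff.1 h, rfl⟩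
  · rintro ⟨i, hi, rfl⟩
    exact nat_mem_iff.2 hi

section fin

variable {M : Set ZFSet.{0}} (hM : IsZF M)

include hM

theorem exists_enum (s : Finset ZFSet.{0}) (hs : ∀ x ∈ s, x ∈ M) :
    ∃ n : ℕ, ∃ f ∈ M, ∀ x ∈ s, ∃ i < n, x = ap f (nat i) := by
  classical
  induction s using Finset.induction_on with
  | empty => exact ⟨0, ∅, hM.empty_mem, fun x hx => absurd hx (Finset.notMem_empty x)⟩
  | insert x s _ ih =>
    obtain ⟨n, f, hf, h1⟩ := ih fun y hy => hs y (Finset.mem_insert_of_mem hy)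
    obtain ⟨f', hf', h2, h3⟩ := exists_mod hM hf (hM.nat_mem n) (hs x (Finset.mem_insert_self x s))
    refine ⟨n + 1, f', hf', fun y hy => ?_⟩
    rcases Finset.mem_insert.1 hy with rfl | hy
    · exact ⟨n, Nat.lt_succ_self n, h2.symm⟩
    · obtain ⟨i, hi, rfl⟩ := h1 y hy
      refine ⟨i, by omega, (h3 _ fun h => ?_).symm⟩
      have := nat_injective h
      omega

theorem dfn_fi {n : ℕ} {F : (Fin n → ZFSet.{0}) → ZFSet.{0}} (hF : DfnF M M F) :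
    Dfn M M fun v => Fi (F v) := by
  have hB := hM.base
  refine Dfn.comp1 (Q := Fi) ?_ hF
  have h1 : Dfn M M fun w : Fin 1 → ZFSet.{0} => ∃ n ∈ ZFSet.omega, ∃ f ∈ M, ∀ x ∈ w 0,
      ∃ i ∈ n, x = ap f i := by
    refine hB.bex (Q := fun n w => ∃ f ∈ M, ∀ x ∈ w 0, ∃ i ∈ n, x = ap f i)
      (DfnF.const hM.infinity) ?_
    refine Dfn.ex (Q := fun f w => ∀ x ∈ w 1, ∃ i ∈ w 0, x = ap f i) ?_
    refine hB.ball (Q := fun x w => ∃ i ∈ w 1, x = ap (w 0) i) (DfnF.proj 2) ?_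
    refine hB.bex (Q := fun i w => w 0 = ap (w 1) i) (DfnF.proj 2) ?_
    exact Dfn.eq (DfnF.proj 1) (hM.ap' (DfnF.proj 2) (DfnF.proj 0))
  refine h1.congr fun v hv => ?_
  constructor
  · rintro ⟨n, hn, f, -, h2⟩
    obtain ⟨n, rfl⟩ := mem_omega_iff.1 hn
    refine Set.Finite.subset (Set.Finite.image (fun i : ℕ => ap f (nat i))
      (Set.finite_lt_nat n)) ?_
    intro x hx
    obtain ⟨i, hi, rfl⟩ := h2 x hx
    obtain ⟨k, hk, rfl⟩ := mem_nat.1 hi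
    exact ⟨k, hk, rfl⟩
  · intro h
    obtain ⟨n, f, hf, h2⟩ := exists_enum hM (Set.Finite.toFinset h) fun x hx =>
      hM.trans _ (hv 0) _ ((Set.Finite.mem_toFinset h).1 hx)
    refine ⟨nat n, nat_mem_omega n, f, hf, fun x hx => ?_⟩
    obtain ⟨i, hi, h3⟩ := h2 x ((Set.Finite.mem_toFinset h).2 hx)
    exact ⟨nat i, nat_mem_iff.2 hi, h3⟩

/-- Finite subsets of the model are in the model. -/
theorem fin_mem {p : ZFSet.{0}} (hp : Fi p) (h : ∀ x ∈ p, x ∈ M) : p ∈ M := by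
  classical
  have h1 : ∀ s : Finset ZFSet.{0}, (∀ x ∈ s, x ∈ M) → ∀ q : ZFSet.{0},
      (∀ x, x ∈ q ↔ x ∈ s) → q ∈ M := by
    intro s
    induction s using Finset.induction_on with
    | empty =>
      intro _ q hq
      have : q = ∅ := (ZFSet.eq_empty q).2 fun y hy => absurd ((hq y).1 hy) (Finset.notMem_empty y)
      rw [this]
      exact hM.empty_mem
    | insert x s hx ih =>
      intro hs q hq
      have h2 := ih (fun y hy => hs y (Finset.mem_insert_of_mem hy))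
        (ZFSet.sep (fun y => y ∈ s) q) (by
          intro y
          rw [ZFSet.mem_sep, hq, Finset.mem_insert]
          tauto)
      have h3 : q = insert x (ZFSet.sep (fun y => y ∈ s) q) := by
        ext y
        rw [ZFSet.mem_insert_iff, ZFSet.mem_sep, hq, Finset.mem_insert]
        tauto
      rw [h3]
      exact hM.insert_mem (hs x (Finset.mem_insert_self x s)) h2
  exact h1 hp.toFinset (fun x hx => h x (hp.mem_toFinset.1 hx)) p
    fun x => (hp.mem_toFinset).symm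

end fin

/-! ### Permutations of the indices -/

/-- The graph of a function on the indices. -/
noncomputable def gJ (σ : J X → J X) : ZFSet.{0} := ZFSet.range fun j : J X => pair (ic j) (ic (σ j))

theorem mem_gJ {σ : J X → J X} {z : ZFSet.{0}} : z ∈ gJ σ ↔ ∃ j, z = pair (ic j) (ic (σ j)) := by
  rw [gJ, ZFSet.mem_range]
  constructor
  · rintro ⟨j, rfl⟩
    exact ⟨j, rfl⟩
  · rintro ⟨j, rfl⟩
    exact ⟨j, rfl⟩

theorem ap_gJ (σ : J X → J X) (j : J X) : ap (gJ σ) (ic j) = ic (σ j) := by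
  refine ap_unique fun q => ?_
  constructor
  · rintro ⟨h1, h2⟩
    obtain ⟨i, rfl⟩ := mem_gJ.1 h1
    rw [fs_pair, ic_inj] at h2
    rw [h2]
  · rintro rfl
    exact ⟨mem_gJ.2 ⟨j, rfl⟩, by rw [fs_pair]⟩

theorem gJ_inj {σ τ : J X → J X} (h : gJ σ = gJ τ) : σ = τ := by
  funext j
  have := ap_gJ σ j
  rw [h, ap_gJ] at this
  exact (ic_inj.1 this).symm

theorem gJ_bij (σ : Equiv.Perm (J X)) : IsBij (II X) (II X) (gJ σ) := by
  refine ⟨⟨⟨?_, ?_⟩, ?_⟩, ?_⟩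
  · intro z hz
    obtain ⟨j, rfl⟩ := mem_gJ.1 hz
    exact ZFSet.pair_mem_prod.2 ⟨mem_II.2 ⟨j, rfl⟩, mem_II.2 ⟨_, rfl⟩⟩
  · intro z hz
    obtain ⟨j, rfl⟩ := mem_II.1 hz
    refine ⟨ic (σ j), mem_gJ.2 ⟨j, rfl⟩, ?_⟩
    intro w hw
    obtain ⟨i, h1⟩ := mem_gJ.1 hw
    obtain ⟨h2, rfl⟩ := ZFSet.pair_inj.1 h1
    rw [ic_inj] at h2
    rw [h2]
  · intro a b c ha hb
    obtain ⟨i, h1⟩ := mem_gJ.1 ha
    obtain ⟨j, h2⟩ := mem_gJ.1 hb
    obtain ⟨rfl, rfl⟩ := ZFSet.pair_inj.1 h1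
    obtain ⟨rfl, h3⟩ := ZFSet.pair_inj.1 h2
    rw [ic_inj] at h3
    rw [σ.injective h3]
  · intro b hb
    obtain ⟨j, rfl⟩ := mem_II.1 hb
    exact ⟨ic (σ⁻¹ j), mem_II.2 ⟨_, rfl⟩, mem_gJ.2 ⟨σ⁻¹ j, by rw [ais]⟩⟩

theorem exists_perm {π : ZFSet.{0}} (h : IsBij (II X) (II X) π) : ∃ σ : Equiv.Perm (J X), π = gJ σ := by
  obtain ⟨⟨⟨h1, h2⟩, h3⟩, h4⟩ := h
  have h5 : ∀ j : J X, ∃ i : J X, pair (ic j) (ic i) ∈ π := by
    intro j
    obtain ⟨w, hw, -⟩ := h2 (ic j) (mem_II.2 ⟨j, rfl⟩)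
    obtain ⟨i, rfl⟩ := mem_II.1 (ZFSet.pair_mem_prod.1 (h1 hw)).2
    exact ⟨i, hw⟩
  choose σ hσ using h5
  have hinj : Function.Injective σ := by
    intro i j hij
    have := h3 _ _ _ (hσ i) (hij ▸ hσ j)
    exact ic_inj.1 this
  have huniq : ∀ j i, pair (ic j) (ic i) ∈ π → i = σ j := by
    intro j i hi
    obtain ⟨w, -, hw⟩ := h2 (ic j) (mem_II.2 ⟨j, rfl⟩)
    exact ic_inj.1 ((hw _ hi).trans (hw _ (hσ j)).symm)
  have hsurj : Function.Surjective σ := by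
    intro i
    obtain ⟨a, ha, h5⟩ := h4 (ic i) (mem_II.2 ⟨i, rfl⟩)
    obtain ⟨j, rfl⟩ := mem_II.1 ha
    exact ⟨j, (huniq j i h5).symm⟩
  refine ⟨Equiv.ofBijective σ ⟨hinj, hsurj⟩, ?_⟩
  ext z
  rw [mem_gJ]
  constructor
  · intro hz
    obtain ⟨a, ha, b, hb, rfl⟩ := ZFSet.mem_prod.1 (h1 hz)
    obtain ⟨j, rfl⟩ := mem_II.1 ha
    obtain ⟨i, rfl⟩ := mem_II.1 hb
    exact ⟨j, by rw [huniq j i hz]; rfl⟩
  · rintro ⟨j, rfl⟩
    exact hσ j

/-- The permutations of the indices that act on the first component as a permutation that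
preserves the labels. -/
def Good (σ : Equiv.Perm (J X)) : Prop := ∃ φ : Equiv.Perm X.ι,
  (∀ a, X.lb (φ a) = X.lb a) ∧ ∀ j, (σ j).1 = φ j.1

theorem Good.one : Good (1 : Equiv.Perm (J X)) := ⟨1, fun _ => rfl, fun _ => rfl⟩

theorem Good.mul {σ τ : Equiv.Perm (J X)} (hσ : Good σ) (hτ : Good τ) : Good (σ * τ) := by
  obtain ⟨φ, hk, h1⟩ := hσ
  obtain ⟨ψ, hl, h2⟩ := hτ
  refine ⟨φ * ψ, fun a => ?_, fun j => ?_⟩
  · rw [Equiv.Perm.mul_apply, hk, hl]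
  · rw [Equiv.Perm.mul_apply, h1, h2, Equiv.Perm.mul_apply]

theorem Good.inv {σ : Equiv.Perm (J X)} (hσ : Good σ) : Good σ⁻¹ := by
  obtain ⟨φ, hk, h1⟩ := hσ
  refine ⟨φ⁻¹, fun a => ?_, fun j => ?_⟩
  · rw [← hk (φ⁻¹ a)]
    congr 1
    exact φ.apply_symm_apply a
  · have h2 := h1 (σ⁻¹ j)
    rw [ais] at h2
    rw [h2]
    exact (φ.symm_apply_apply _).symm

/-- The action on the first components. -/
noncomputable def al (π a : ZFSet.{0}) : ZFSet.{0} := fs (ap π (pair a (nat 0)))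

theorem al_gJ (σ : J X → J X) (a : X.ι) : al (gJ σ) (X.c a) = X.c (σ (a, 0)).1 := by
  unfold al
  have h := ap_gJ σ (a, 0)
  unfold ic at h
  rw [h, fs_pair]

variable (X) in
/-- The description of the automorphisms, in the model. -/
def GQ (π : ZFSet.{0}) : Prop := IsBij (II X) (II X) π ∧
  (∀ a ∈ X.gam, ∀ n ∈ ZFSet.omega, fs (ap π (pair a n)) = al π a) ∧
  (∀ a ∈ X.gam, ∀ b ∈ X.gam, al π a = al π b → a = b) ∧
  (∀ a ∈ X.gam, ap X.lbz (al π a) = ap X.lbz a)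

theorem nat_sub {k n : ℕ} : nat k ⊆ nat n ↔ k ≤ n := by
  constructor
  · intro h
    by_contra hcon
    exact ZFSet.mem_irrefl _ (h (nat_mem_iff.2 (not_le.1 hcon)))
  · exact nat_subset

theorem GQ_iff {π : ZFSet.{0}} : GQ X π ↔ ∃ σ : Equiv.Perm (J X), Good σ ∧ π = gJ σ := by
  constructor
  · rintro ⟨h1, h2, h3, h4⟩
    obtain ⟨σ, rfl⟩ := exists_perm h1
    have h2' : ∀ j : J X, (σ j).1 = (σ (j.1, 0)).1 := by
      intro j
      have h6 := h2 (X.c j.1) (code_mem _) (nat j.2) (nat_mem_omega _)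
      have h7 := ap_gJ σ j
      unfold ic at h7
      rw [h7, fs_pair, al_gJ, code_inj] at h6
      exact h6
    have hb : Function.Bijective fun a : X.ι => (σ (a, 0)).1 := by
      constructor
      · intro a b hab
        have h6 := h3 (X.c a) (code_mem a) (X.c b) (code_mem b) (by
          rw [al_gJ, al_gJ, code_inj]
          exact hab)
        exact code_inj.1 h6
      · intro a
        refine ⟨(σ⁻¹ (a, 0)).1, ?_⟩
        dsimp only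
        rw [← h2', ais]
    refine ⟨σ, ⟨Equiv.ofBijective _ hb, fun a => ?_, fun j => ?_⟩, rfl⟩
    · have h6 := h4 (X.c a) (code_mem a)
      rw [al_gJ, ap_lbz, ap_lbz] at h6
      exact h6
    · exact h2' j
  · rintro ⟨σ, ⟨φ, hk, h1⟩, rfl⟩
    have h2 : ∀ a, al (gJ σ) (X.c a) = X.c (φ a) := fun a => by rw [al_gJ, h1]
    refine ⟨gJ_bij σ, ?_, ?_, ?_⟩
    · intro a ha n hn
      obtain ⟨a, rfl⟩ := mem_gam.1 ha
      obtain ⟨n, rfl⟩ := mem_omega_iff.1 hn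
      have h3 := ap_gJ σ (a, n)
      unfold ic at h3
      rw [h3, fs_pair, h2, h1]
    · intro a ha b hb hab
      obtain ⟨a, rfl⟩ := mem_gam.1 ha
      obtain ⟨b, rfl⟩ := mem_gam.1 hb
      rw [h2, h2, code_inj] at hab
      rw [φ.injective hab]
    · intro a ha
      obtain ⟨a, rfl⟩ := mem_gam.1 ha
      rw [h2, ap_lbz, ap_lbz, hk]

variable (X) in
/-- The set of the automorphisms. -/
noncomputable def Gr (M : Set ZFSet.{0}) : ZFSet.{0} :=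
  ZFSet.sep (GQ X) (pwM M (ZFSet.prod (II X) (II X)))

theorem mem_Gr {M : Set ZFSet.{0}} {π : ZFSet.{0}} :
    π ∈ Gr X M ↔ ∃ σ : Equiv.Perm (J X), Good σ ∧ gJ σ ∈ M ∧ π = gJ σ := by
  rw [Gr, ZFSet.mem_sep, GQ_iff, mem_pwM]
  constructor
  · rintro ⟨⟨h1, -⟩, σ, h2, rfl⟩
    exact ⟨σ, h2, h1, rfl⟩
  · rintro ⟨σ, h2, h1, rfl⟩
    exact ⟨⟨h1, (gJ_bij σ).1.1.1⟩, σ, h2, rfl⟩

/-- A finite set of indices as a set. -/
noncomputable def Es (s : Finset (J X)) : ZFSet.{0} := ZFSet.range fun j : {j : J X // j ∈ s} => ic j.1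

theorem mem_Es {s : Finset (J X)} {z : ZFSet.{0}} : z ∈ Es s ↔ ∃ j ∈ s, z = ic j := by
  rw [Es, ZFSet.mem_range]
  constructor
  · rintro ⟨⟨j, hj⟩, rfl⟩
    exact ⟨j, hj, rfl⟩
  · rintro ⟨j, hj, rfl⟩
    exact ⟨⟨j, hj⟩, rfl⟩

theorem fi_Es (s : Finset (J X)) : Fi (Es s) := by
  refine Set.Finite.subset ((s.finite_toSet).image ic) ?_
  intro z hz
  obtain ⟨j, hj, rfl⟩ := mem_Es.1 hz
  exact ⟨j, hj, rfl⟩

theorem exists_Es {E : ZFSet.{0}} (hE : Fi E) (h : E ⊆ (II X)) : ∃ s : Finset (J X), E = Es s := by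
  classical
  have h1 : {j : J X | ic j ∈ E}.Finite := by
    refine Set.Finite.of_finite_image (f := ic) (hE.subset ?_) fun i _ j _ hij => ic_inj.1 hij
    rintro _ ⟨j, hj, rfl⟩
    exact hj
  refine ⟨h1.toFinset, ?_⟩
  ext z
  rw [mem_Es]
  constructor
  · intro hz
    obtain ⟨j, rfl⟩ := mem_II.1 (h hz)
    exact ⟨j, h1.mem_toFinset.2 hz, rfl⟩
  · rintro ⟨j, hj, rfl⟩
    exact h1.mem_toFinset.1 hj

/-- The automorphisms that fix the elements of `E`. -/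
noncomputable def fx (X : Ix) (M : Set ZFSet.{0}) (E : ZFSet.{0}) : ZFSet.{0} :=
  ZFSet.sep (fun π => ∀ i ∈ E, ap π i = i) (Gr X M)

theorem mem_fx {M : Set ZFSet.{0}} {s : Finset (J X)} {π : ZFSet.{0}} : π ∈ fx X M (Es s) ↔
    ∃ σ : Equiv.Perm (J X), Good σ ∧ gJ σ ∈ M ∧ (∀ j ∈ s, σ j = j) ∧ π = gJ σ := by
  rw [fx, ZFSet.mem_sep, mem_Gr]
  constructor
  · rintro ⟨⟨σ, h1, h2, rfl⟩, h3⟩
    refine ⟨σ, h1, h2, fun j hj => ?_, rfl⟩
    have := h3 (ic j) (mem_Es.2 ⟨j, hj, rfl⟩)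
    rw [ap_gJ, ic_inj] at this
    exact this
  · rintro ⟨σ, h1, h2, h3, rfl⟩
    refine ⟨⟨σ, h1, h2, rfl⟩, fun i hi => ?_⟩
    obtain ⟨j, hj, rfl⟩ := mem_Es.1 hi
    rw [ap_gJ, h3 j hj]

/-- The filter of subgroups. -/
noncomputable def Fl (X : Ix) (M : Set ZFSet.{0}) : ZFSet.{0} :=
  im (fx X M) (ZFSet.sep Fi (pwM M (II X)))

/-! ### The conditions -/

/-- The set of conditions. -/
noncomputable def PP (X : Ix) (M : Set ZFSet.{0}) : ZFSet.{0} :=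
  ZFSet.sep (fun p => Fu p ∧ Fi p) (pwM M (BB X))

theorem mem_PP {M : Set ZFSet.{0}} {p : ZFSet.{0}} :
    p ∈ PP X M ↔ p ∈ M ∧ p ⊆ (BB X) ∧ Fu p ∧ Fi p := by
  rw [PP, ZFSet.mem_sep, mem_pwM, and_assoc]

/-- The action on the conditions. -/
noncomputable def ac (π p : ZFSet.{0}) : ZFSet.{0} :=
  im (fun u => pair (pair (ap π (fs (fs u))) (sn (fs u))) (sn u)) p

theorem mem_ac {σ : J X → J X} {p z : ZFSet.{0}} (hp : p ⊆ (BB X)) : z ∈ ac (gJ σ) p ↔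
    ∃ j m b, el j m b ∈ p ∧ z = el (σ j) m b := by
  rw [ac, mem_im]
  constructor
  · rintro ⟨u, hu, rfl⟩
    obtain ⟨j, m, b, rfl⟩ := mem_BB.1 (hp hu)
    refine ⟨j, m, b, hu, ?_⟩
    unfold el
    rw [fs_pair, fs_pair, sn_pair, sn_pair, ap_gJ]
  · rintro ⟨j, m, b, h, rfl⟩
    refine ⟨_, h, ?_⟩
    unfold el
    rw [fs_pair, fs_pair, sn_pair, sn_pair, ap_gJ]

theorem ac_sub {σ : J X → J X} {p : ZFSet.{0}} (hp : p ⊆ (BB X)) : ac (gJ σ) p ⊆ (BB X) := by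
  intro z hz
  obtain ⟨j, m, b, -, rfl⟩ := (mem_ac hp).1 hz
  exact mem_BB.2 ⟨_, _, _, rfl⟩

theorem el_mem_ac {σ : Equiv.Perm (J X)} {p : ZFSet.{0}} (hp : p ⊆ (BB X)) {j : J X} {m : ℕ} {b : Bool} :
    el j m b ∈ ac (gJ σ) p ↔ el (σ⁻¹ j) m b ∈ p := by
  rw [mem_ac hp]
  constructor
  · rintro ⟨i, n, c, h, h'⟩
    obtain ⟨rfl, rfl, rfl⟩ := el_inj.1 h'
    rwa [ias]
  · intro h
    exact ⟨_, _, _, h, by rw [ais]⟩

theorem ext_BB {p q : ZFSet.{0}} (hp : p ⊆ (BB X)) (hq : q ⊆ (BB X))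
    (h : ∀ (j : J X) (m : ℕ) (b : Bool), el j m b ∈ p ↔ el j m b ∈ q) : p = q := by
  ext z
  constructor
  · intro hz
    obtain ⟨j, m, b, rfl⟩ := mem_BB.1 (hp hz)
    exact (h j m b).1 hz
  · intro hz
    obtain ⟨j, m, b, rfl⟩ := mem_BB.1 (hq hz)
    exact (h j m b).2 hz

theorem ac_mul (σ τ : Equiv.Perm (J X)) {p : ZFSet.{0}} (hp : p ⊆ (BB X)) :
    ac (gJ σ) (ac (gJ τ) p) = ac (gJ (σ * τ : Equiv.Perm (J X))) p := by
  refine ext_BB (ac_sub (ac_sub hp)) (ac_sub hp) fun j m b => ?_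
  rw [el_mem_ac (ac_sub hp), el_mem_ac hp, el_mem_ac hp]
  rfl

theorem ac_one {p : ZFSet.{0}} (hp : p ⊆ (BB X)) : ac (gJ (1 : Equiv.Perm (J X))) p = p := by
  refine ext_BB (ac_sub hp) hp fun j m b => ?_
  rw [el_mem_ac hp]
  rfl

section mdl

variable {M : Set ZFSet.{0}} (hM : IsZF M) (hX : X.In M)

include hM hX

theorem II_mem : (II X) ∈ M := hM.prod_mem hX.gam hM.infinity

theorem BB_mem : (BB X) ∈ M := hM.prod_mem (hM.prod_mem (II_mem hM hX) hM.infinity) (hM.nat_mem 2)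

theorem ic_mem (j : J X) : ic j ∈ M := hM.trans _ (II_mem hM hX) _ (mem_II.2 ⟨j, rfl⟩)

theorem PP_mem : PP X M ∈ M := by
  refine hM.sep_mem ?_ (pwM_mem hM (BB_mem hM hX))
  exact (dfn_fu hM (DfnF.proj 0)).and (dfn_fi hM (DfnF.proj 0))

theorem LL_mem : Lf (PP X M) ∈ M := by
  have hB := hM.base
  refine hM.sep_mem ?_ (hM.prod_mem (PP_mem hM hX) (PP_mem hM hX))
  exact hB.subset' (hM.sn' (DfnF.proj 0)) (hM.fs' (DfnF.proj 0))

theorem dfn_ac : DfnF M M fun w : Fin 2 → ZFSet.{0} => ac (w 0) (w 1) := by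
  have hB := hM.base
  refine hM.im' (h := fun u w => pair (pair (ap (w 0) (fs (fs u))) (sn (fs u))) (sn u))
    (DfnF.proj 1) ?_
  exact hB.pair' (hB.pair' (hM.ap' (DfnF.proj 1) (hM.fs' (hM.fs' (DfnF.proj 0))))
    (hM.sn' (hM.fs' (DfnF.proj 0)))) (hM.sn' (DfnF.proj 0))

omit hM hX in
theorem empty_PP (hM : IsZF M) : ∅ ∈ PP X M := by
  refine mem_PP.2 ⟨hM.empty_mem, fun z hz => absurd hz (ZFSet.notMem_empty _),
    fun a b c h => absurd h (ZFSet.notMem_empty _), ?_⟩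
  unfold Fi
  simp

theorem forcing_PP : IsForcing M (PP X M) (Lf (PP X M)) where
  mem := PP_mem hM hX
  le_mem := LL_mem hM hX
  refl p hp := mem_Lf.2 ⟨hp, hp, fun _ h => h⟩
  trans p hp q hq r hr h1 h2 := by
    rw [mem_Lf] at h1 h2 ⊢
    exact ⟨hr, hp, fun _ h => h1.2.2 (h2.2.2 h)⟩
  top := ⟨∅, empty_PP hM, fun p hp => mem_Lf.2 ⟨hp, empty_PP hM,
    fun z hz => absurd hz (ZFSet.notMem_empty _)⟩⟩

theorem ac_PP {σ : Equiv.Perm (J X)} (hσ : gJ σ ∈ M) {p : ZFSet.{0}} (hp : p ∈ PP X M) :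
    ac (gJ σ) p ∈ PP X M := by
  obtain ⟨h1, h2, h3, h4⟩ := mem_PP.1 hp
  refine mem_PP.2 ⟨?_, ac_sub h2, ?_, ?_⟩
  · exact (DfnF.comp2 (f := ac) (dfn_ac hM hX) (DfnF.const hσ) (DfnF.const h1)).1 Fin.elim0
      fun i => i.elim0
  · intro a b c hb hc
    obtain ⟨j, m, b', hb', h5⟩ := (mem_ac h2).1 hb
    obtain ⟨i, n, c', hc', h6⟩ := (mem_ac h2).1 hc
    obtain ⟨rfl, rfl⟩ := ZFSet.pair_inj.1 h5
    obtain ⟨h7, rfl⟩ := ZFSet.pair_inj.1 h6
    obtain ⟨h8, h9⟩ := ZFSet.pair_inj.1 h7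
    have h10 := σ.injective (ic_inj.1 h8)
    have h11 := nat_injective h9
    subst h10
    subst h11
    exact h3 _ _ _ hb' hc'
  · refine Set.Finite.subset (h4.image fun u =>
      pair (pair (ap (gJ σ) (fs (fs u))) (sn (fs u))) (sn u)) ?_
    intro z hz
    obtain ⟨u, hu, rfl⟩ := mem_im.1 hz
    exact ⟨u, hu, rfl⟩

theorem gJ_one : gJ (1 : Equiv.Perm (J X)) ∈ M := by
  have h : gJ (1 : Equiv.Perm (J X)) = im (fun i => pair i i) (II X) := by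
    ext z
    rw [mem_gJ, mem_im]
    constructor
    · rintro ⟨j, rfl⟩
      exact ⟨ic j, mem_II.2 ⟨j, rfl⟩, rfl⟩
    · rintro ⟨i, hi, rfl⟩
      obtain ⟨j, rfl⟩ := mem_II.1 hi
      exact ⟨j, rfl⟩
  rw [h]
  exact hM.im_mem (II_mem hM hX) (hM.base.pair' (DfnF.proj 0) (DfnF.proj 0))

theorem gJ_mul {σ τ : Equiv.Perm (J X)} (hσ : gJ σ ∈ M) (hτ : gJ τ ∈ M) :
    gJ (σ * τ : Equiv.Perm (J X)) ∈ M := by
  have h : gJ (σ * τ : Equiv.Perm (J X)) = im (fun i => pair i (ap (gJ σ) (ap (gJ τ) i))) (II X) := by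
    ext z
    rw [mem_gJ, mem_im]
    constructor
    · rintro ⟨j, rfl⟩
      exact ⟨ic j, mem_II.2 ⟨j, rfl⟩, by rw [ap_gJ, ap_gJ]; rfl⟩
    · rintro ⟨i, hi, rfl⟩
      obtain ⟨j, rfl⟩ := mem_II.1 hi
      exact ⟨j, by rw [ap_gJ, ap_gJ]; rfl⟩
  rw [h]
  exact hM.im_mem (II_mem hM hX) (hM.base.pair' (DfnF.proj 0)
    (hM.ap' (DfnF.const hσ) (hM.ap' (DfnF.const hτ) (DfnF.proj 0))))

theorem gJ_inv {σ : Equiv.Perm (J X)} (hσ : gJ σ ∈ M) : gJ (σ⁻¹ : Equiv.Perm (J X)) ∈ M := by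
  have h : gJ (σ⁻¹ : Equiv.Perm (J X)) = im (fun u => pair (sn u) (fs u)) (gJ σ) := by
    ext z
    rw [mem_gJ, mem_im]
    constructor
    · rintro ⟨j, rfl⟩
      exact ⟨_, mem_gJ.2 ⟨σ⁻¹ j, rfl⟩, by rw [fs_pair, sn_pair, ais]⟩
    · rintro ⟨u, hu, rfl⟩
      obtain ⟨j, rfl⟩ := mem_gJ.1 hu
      exact ⟨σ j, by rw [fs_pair, sn_pair, ias]⟩
  rw [h]
  exact hM.im_mem hσ (hM.base.pair' (hM.sn' (DfnF.proj 0)) (hM.fs' (DfnF.proj 0)))

theorem dfn_al {n : ℕ} {F G : (Fin n → ZFSet.{0}) → ZFSet.{0}} (hF : DfnF M M F)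
    (hG : DfnF M M G) : DfnF M M fun v => al (F v) (G v) :=
  hM.fs' (hM.ap' hF (hM.base.pair' hG (DfnF.const (hM.nat_mem 0))))

theorem dfn_GQ : Dfn M M fun w : Fin 1 → ZFSet.{0} => GQ X (w 0) := by
  have hB := hM.base
  have hg := hX.gam
  have ho := hM.infinity
  unfold GQ
  refine (hB.isBij' (DfnF.const (II_mem hM hX)) (DfnF.const (II_mem hM hX)) (DfnF.proj 0)).and ?_
  refine Dfn.and ?_ (Dfn.and ?_ ?_)
  · refine hB.ball (Q := fun a w => ∀ n ∈ ZFSet.omega, fs (ap (w 0) (pair a n)) = al (w 0) a)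
      (DfnF.const hg) ?_
    refine hB.ball (Q := fun n w => fs (ap (w 1) (pair (w 0) n)) = al (w 1) (w 0))
      (DfnF.const ho) ?_
    exact Dfn.eq (hM.fs' (hM.ap' (DfnF.proj 2) (hB.pair' (DfnF.proj 1) (DfnF.proj 0))))
      (dfn_al hM hX (DfnF.proj 2) (DfnF.proj 1))
  · refine hB.ball (Q := fun a w => ∀ b ∈ X.gam, al (w 0) a = al (w 0) b → a = b)
      (DfnF.const hg) ?_
    refine hB.ball (Q := fun b w => al (w 1) (w 0) = al (w 1) b → w 0 = b) (DfnF.const hg) ?_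
    exact (Dfn.eq (dfn_al hM hX (DfnF.proj 2) (DfnF.proj 1))
      (dfn_al hM hX (DfnF.proj 2) (DfnF.proj 0))).imp (Dfn.eq (DfnF.proj 1) (DfnF.proj 0))
  · refine hB.ball (Q := fun a w => ap X.lbz (al (w 0) a) = ap X.lbz a) (DfnF.const hg) ?_
    exact Dfn.eq (hM.ap' (DfnF.const hX.lbz) (dfn_al hM hX (DfnF.proj 1) (DfnF.proj 0)))
      (hM.ap' (DfnF.const hX.lbz) (DfnF.proj 0))

theorem Gr_mem : Gr X M ∈ M :=
  hM.sep_mem (dfn_GQ hM hX) (pwM_mem hM (hM.prod_mem (II_mem hM hX) (II_mem hM hX)))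

theorem dfn_fx : DfnF M M fun w : Fin 1 → ZFSet.{0} => fx X M (w 0) := by
  have hB := hM.base
  refine hM.sep' (Q := fun π w => ∀ i ∈ w 0, ap π i = i) (DfnF.const (Gr_mem hM hX)) ?_
  refine hB.ball (Q := fun i w => ap (w 0) i = i) (DfnF.proj 1) ?_
  exact Dfn.eq (hM.ap' (DfnF.proj 1) (DfnF.proj 0)) (DfnF.proj 0)

theorem Fl_mem : Fl X M ∈ M :=
  hM.im_mem (hM.sep_mem (dfn_fi hM (DfnF.proj 0)) (pwM_mem hM (II_mem hM hX))) (dfn_fx hM hX)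

theorem Es_mem (s : Finset (J X)) : Es s ∈ M := by
  refine fin_mem hM (fi_Es s) fun x hx => ?_
  obtain ⟨j, -, rfl⟩ := mem_Es.1 hx
  exact ic_mem hM hX j

theorem mem_Fl {H : ZFSet.{0}} : H ∈ Fl X M ↔ ∃ s : Finset (J X), H = fx X M (Es s) := by
  rw [Fl, mem_im]
  constructor
  · rintro ⟨E, hE, rfl⟩
    obtain ⟨h1, h2⟩ := ZFSet.mem_sep.1 hE
    obtain ⟨s, rfl⟩ := exists_Es h2 (mem_pwM.1 h1).2
    exact ⟨s, rfl⟩
  · rintro ⟨s, rfl⟩
    refine ⟨Es s, ZFSet.mem_sep.2 ⟨mem_pwM.2 ⟨Es_mem hM hX s, fun z hz => ?_⟩, fi_Es s⟩, rfl⟩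
    obtain ⟨j, -, rfl⟩ := mem_Es.1 hz
    exact mem_II.2 ⟨j, rfl⟩

/-- The symmetric system. -/
theorem symSys : SymSys M (PP X M) (Lf (PP X M)) ac (Gr X M) (Fl X M) where
  gr := Gr_mem hM hX
  fl := Fl_mem hM hX
  dac := dfn_ac hM hX
  maps g hg p hp := by
    obtain ⟨σ, -, h, rfl⟩ := mem_Gr.1 hg
    exact ac_PP hM hX h hp
  mono g hg p hp q hq h := by
    obtain ⟨σ, -, h1, rfl⟩ := mem_Gr.1 hg
    rw [mem_Lf] at h ⊢
    refine ⟨ac_PP hM hX h1 hq, ac_PP hM hX h1 hp, fun z hz => ?_⟩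
    obtain ⟨j, m, b, h2, rfl⟩ := (mem_ac (mem_PP.1 hp).2.1).1 hz
    exact (mem_ac (mem_PP.1 hq).2.1).2 ⟨j, m, b, h.2.2 h2, rfl⟩
  inv g hg := by
    obtain ⟨σ, h0, h1, rfl⟩ := mem_Gr.1 hg
    refine ⟨gJ (σ⁻¹ : Equiv.Perm (J X)), mem_Gr.2 ⟨_, h0.inv, gJ_inv hM hX h1, rfl⟩, fun p hp => ?_⟩
    have hpB := (mem_PP.1 hp).2.1
    rw [ac_mul _ _ hpB, ac_mul _ _ hpB, inv_mul_cancel, mul_inv_cancel, ac_one hpB]
    exact ⟨rfl, rfl⟩
  mul g hg h hh := by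
    obtain ⟨σ, h0, h1, rfl⟩ := mem_Gr.1 hg
    obtain ⟨τ, h2, h3, rfl⟩ := mem_Gr.1 hh
    exact ⟨_, mem_Gr.2 ⟨σ * τ, h0.mul h2, gJ_mul hM hX h1 h3, rfl⟩, fun p hp =>
      ac_mul _ _ (mem_PP.1 hp).2.1⟩
  ne := ⟨_, (mem_Fl hM hX).2 ⟨∅, rfl⟩⟩
  sub H hH g hg := by
    obtain ⟨s, rfl⟩ := (mem_Fl hM hX).1 hH
    exact (ZFSet.mem_sep.1 hg).1
  hone H hH := by
    obtain ⟨s, rfl⟩ := (mem_Fl hM hX).1 hH
    exact ⟨_, mem_fx.2 ⟨1, Good.one, gJ_one hM hX, fun _ _ => rfl, rfl⟩, fun p hp =>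
      ac_one (mem_PP.1 hp).2.1⟩
  hinv H hH g hg := by
    obtain ⟨s, rfl⟩ := (mem_Fl hM hX).1 hH
    obtain ⟨σ, h0, h1, h2, rfl⟩ := mem_fx.1 hg
    refine ⟨gJ (σ⁻¹ : Equiv.Perm (J X)), mem_fx.2 ⟨_, h0.inv, gJ_inv hM hX h1, fun j hj => ?_, rfl⟩,
      fun p hp => ?_⟩
    · rw [Equiv.Perm.inv_eq_iff_eq, h2 j hj]
    · have hpB := (mem_PP.1 hp).2.1
      rw [ac_mul _ _ hpB, ac_mul _ _ hpB, inv_mul_cancel, mul_inv_cancel, ac_one hpB]
      exact ⟨rfl, rfl⟩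
  dir H hH K hK := by
    classical
    obtain ⟨s, rfl⟩ := (mem_Fl hM hX).1 hH
    obtain ⟨t, rfl⟩ := (mem_Fl hM hX).1 hK
    refine ⟨_, (mem_Fl hM hX).2 ⟨s ∪ t, rfl⟩, fun π hπ => ?_, fun π hπ => ?_⟩
    · obtain ⟨σ, h0, h1, h2, rfl⟩ := mem_fx.1 hπ
      exact mem_fx.2 ⟨σ, h0, h1, fun j hj => h2 j (Finset.mem_union_left _ hj), rfl⟩
    · obtain ⟨σ, h0, h1, h2, rfl⟩ := mem_fx.1 hπ
      exact mem_fx.2 ⟨σ, h0, h1, fun j hj => h2 j (Finset.mem_union_right _ hj), rfl⟩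
  conj H hH g hg := by
    classical
    obtain ⟨s, rfl⟩ := (mem_Fl hM hX).1 hH
    obtain ⟨σ, h0, h1, rfl⟩ := mem_Gr.1 hg
    refine ⟨_, (mem_Fl hM hX).2 ⟨s.image σ, rfl⟩, fun k hk => ?_⟩
    obtain ⟨τ, h2, h3, h4, rfl⟩ := mem_fx.1 hk
    refine ⟨gJ (σ⁻¹ * τ * σ : Equiv.Perm (J X)), mem_fx.2 ⟨_, (h0.inv.mul h2).mul h0,
      gJ_mul hM hX (gJ_mul hM hX (gJ_inv hM hX h1) h3) h1, fun j hj => ?_, rfl⟩, fun p hp => ?_⟩
    · rw [Equiv.Perm.mul_apply, Equiv.Perm.mul_apply, h4 _ (Finset.mem_image_of_mem _ hj),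
        ias]
    · have hpB := (mem_PP.1 hp).2.1
      rw [ac_mul _ _ hpB, ac_mul _ _ hpB]
      congr 2
      group
  top := by
    refine ⟨∅, empty_PP hM, fun p hp => mem_Lf.2 ⟨hp, empty_PP hM,
      fun z hz => absurd hz (ZFSet.notMem_empty _)⟩, fun g _ => ?_⟩
    refine (ZFSet.eq_empty _).2 fun y hy => ?_
    obtain ⟨u, hu, -⟩ := mem_im.1 hy
    exact ZFSet.notMem_empty _ hu

end mdl

end idx

end Pool.Agent.H158_HM
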