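import Pool.Agent.H158_HM.Cnd

/-!
# The names, and homogeneity
-/

set_option autoImplicit false
set_option linter.unreachableTactic false
set_option linter.unusedTactic false
set_option linter.unusedSectionVars false

namespace Pool.Agent.H158_HM

open Pool.Agent.W868 Pool.Agent.W868.GM Pool.Agent.Y588
open Pool.Agent.H158_AM (SymSys Sy HS act mem_act Sn Nm truthS frc_fix frc_mono qmem_act qeq_act
  frc_act supp_fml supp_vec mk_sn chk_sn hs_iff sn_act isZF_nm sepS coverS sub_nm nm_trans)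
open ZFSet (pair)

section idx

variable {X : Ix}

/-! ### The names -/

/-- The name of the generic real number with the index `i`. -/
noncomputable def cn (X : Ix) (M : Set ZFSet.{0}) (i : ZFSet.{0}) : ZFSet.{0} :=
  im (fun u => pair (chk ∅ (fs u)) (sn u))
    (ZFSet.sep (fun u => pair (pair i (fs u)) (nat 1) ∈ sn u) (ZFSet.prod ZFSet.omega (PP X M)))

theorem mem_cn {M : Set ZFSet.{0}} {j : J X} {z : ZFSet.{0}} : z ∈ cn X M (ic j) ↔
    ∃ m : ℕ, ∃ p ∈ PP X M, el j m true ∈ p ∧ z = pair (chk ∅ (nat m)) p := by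
  rw [cn, mem_im]
  constructor
  · rintro ⟨u, hu, rfl⟩
    obtain ⟨h1, h2⟩ := ZFSet.mem_sep.1 hu
    obtain ⟨n, hn, p, hp, rfl⟩ := ZFSet.mem_prod.1 h1
    obtain ⟨m, rfl⟩ := mem_omega_iff.1 hn
    rw [fs_pair, sn_pair] at h2 ⊢
    exact ⟨m, p, hp, h2, rfl⟩
  · rintro ⟨m, p, hp, h, rfl⟩
    refine ⟨pair (nat m) p, ZFSet.mem_sep.2 ⟨ZFSet.pair_mem_prod.2 ⟨nat_mem_omega m, hp⟩, ?_⟩, ?_⟩
    · rw [fs_pair, sn_pair]
      exact h
    · rw [fs_pair, sn_pair]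

/-- The name of the element of the generic group with the index `a`. -/
noncomputable def an (X : Ix) (M : Set ZFSet.{0}) (a : ZFSet.{0}) : ZFSet.{0} :=
  ZFSet.prod (im (fun n => cn X M (pair a n)) ZFSet.omega) {∅}

theorem mem_an {M : Set ZFSet.{0}} {a : X.ι} {z : ZFSet.{0}} : z ∈ an X M (X.c a) ↔
    ∃ n : ℕ, z = pair (cn X M (ic (a, n))) ∅ := by
  rw [an, ZFSet.mem_prod]
  constructor
  · rintro ⟨x, hx, y, hy, rfl⟩
    obtain ⟨n, hn, rfl⟩ := mem_im.1 hx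
    obtain ⟨n, rfl⟩ := mem_omega_iff.1 hn
    rw [ZFSet.mem_singleton] at hy
    subst hy
    exact ⟨n, rfl⟩
  · rintro ⟨n, rfl⟩
    exact ⟨_, mem_im.2 ⟨nat n, nat_mem_omega n, rfl⟩, ∅, by simp, rfl⟩

/-- The name of an unordered pair. -/
noncomputable def up (x y : ZFSet.{0}) : ZFSet.{0} := {pair x ∅, pair y ∅}

/-- The name of an ordered pair. -/
noncomputable def opn (x y : ZFSet.{0}) : ZFSet.{0} := up (up x x) (up x y)

/-- The graph of a function on the labelled set. -/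
noncomputable def gp (φ : X.ι → X.ι) : ZFSet.{0} :=
  ZFSet.range fun a : X.ι => pair (X.c a) (X.c (φ a))

theorem mem_gp {φ : X.ι → X.ι} {z : ZFSet.{0}} : z ∈ gp φ ↔ ∃ a, z = pair (X.c a) (X.c (φ a)) := by
  rw [gp, ZFSet.mem_range]
  constructor
  · rintro ⟨a, rfl⟩
    exact ⟨a, rfl⟩
  · rintro ⟨a, rfl⟩
    exact ⟨a, rfl⟩

theorem ap_gp (φ : X.ι → X.ι) (a : X.ι) : ap (gp φ) (X.c a) = X.c (φ a) := by
  refine ap_unique fun q => ?_
  constructor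
  · rintro ⟨h1, h2⟩
    obtain ⟨b, rfl⟩ := mem_gp.1 h1
    rw [fs_pair, code_inj] at h2
    rw [h2]
  · rintro rfl
    exact ⟨mem_gp.2 ⟨a, rfl⟩, by rw [fs_pair]⟩

section mdl

variable {M : Set ZFSet.{0}} (hM : IsZF M) (hX : X.In M)

include hM hX

theorem dfn_cn {n : ℕ} {F : (Fin n → ZFSet.{0}) → ZFSet.{0}} (hF : DfnF M M F) :
    DfnF M M fun v => cn X M (F v) := by
  have hB := hM.base
  refine hM.im' (h := fun u _ => pair (chk ∅ (fs u)) (sn u)) (hM.sep'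
    (Q := fun u v => pair (pair (F v) (fs u)) (nat 1) ∈ sn u)
    (DfnF.const (hM.prod_mem hM.infinity (PP_mem hM hX))) ?_) ?_
  · exact Dfn.mem (hB.pair' (hB.pair' hF.tail (hM.fs' (DfnF.proj 0)))
      (DfnF.const (hM.nat_mem 1))) (hM.sn' (DfnF.proj 0))
  · exact hB.pair' (DfnF.comp1 (f := chk ∅) (dfn_chk hM hM.empty_mem) (hM.fs' (DfnF.proj 0)))
      (hM.sn' (DfnF.proj 0))

theorem dfn_an {n : ℕ} {F : (Fin n → ZFSet.{0}) → ZFSet.{0}} (hF : DfnF M M F) :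
    DfnF M M fun v => an X M (F v) := by
  have hB := hM.base
  refine hM.prod' (hM.im' (h := fun n v => cn X M (pair (F v) n)) (DfnF.const hM.infinity) ?_)
    (DfnF.const (hM.single_mem hM.empty_mem))
  exact dfn_cn hM hX (hB.pair' hF.tail (DfnF.proj 0))

theorem dfn_up {n : ℕ} {F G : (Fin n → ZFSet.{0}) → ZFSet.{0}} (hF : DfnF M M F)
    (hG : DfnF M M G) : DfnF M M fun v => up (F v) (G v) :=
  hM.base.upair' (hM.base.pair' hF (DfnF.const hM.empty_mem))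
    (hM.base.pair' hG (DfnF.const hM.empty_mem))

theorem dfn_opn {n : ℕ} {F G : (Fin n → ZFSet.{0}) → ZFSet.{0}} (hF : DfnF M M F)
    (hG : DfnF M M G) : DfnF M M fun v => opn (F v) (G v) :=
  dfn_up hM hX (dfn_up hM hX hF hF) (dfn_up hM hX hF hG)

theorem cn_mem (j : J X) : cn X M (ic j) ∈ M :=
  (dfn_cn hM hX (DfnF.const (ic_mem hM hX j))).1 Fin.elim0 fun i => i.elim0

theorem code_memM (a : X.ι) : X.c a ∈ M := hM.trans _ hX.gam _ (code_mem a)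

theorem an_mem (a : X.ι) : an X M (X.c a) ∈ M :=
  (dfn_an hM hX (DfnF.const (code_memM hM hX a))).1 Fin.elim0 fun i => i.elim0

omit hM hX in
theorem ac_empty (g : ZFSet.{0}) : ac g ∅ = ∅ := by
  refine (ZFSet.eq_empty _).2 fun y hy => ?_
  obtain ⟨u, hu, -⟩ := mem_im.1 hy
  exact ZFSet.notMem_empty _ hu

theorem act_chk {g : ZFSet.{0}} (hg : g ∈ Gr X M) {x : ZFSet.{0}} (hx : x ∈ M) :
    act (PP X M) ac g (chk ∅ x) = chk ∅ x :=
  (chk_sn hM (forcing_PP hM hX) (symSys hM hX) (empty_PP hM) (fun g _ => ac_empty g) hx).2 g hg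

theorem act_cn {σ : Equiv.Perm (J X)} (hg : gJ σ ∈ Gr X M) (hσ : gJ σ ∈ M) (j : J X) :
    act (PP X M) ac (gJ σ) (cn X M (ic j)) = cn X M (ic (σ j)) := by
  ext u
  rw [mem_act, mem_cn]
  constructor
  · rintro ⟨y, c, h1, h2, rfl⟩
    obtain ⟨m, p, hp, h3, h4⟩ := mem_cn.1 h1
    obtain ⟨rfl, rfl⟩ := ZFSet.pair_inj.1 h4
    rw [act_chk hM hX hg (hM.nat_mem m)]
    refine ⟨m, _, ac_PP hM hX hσ hp, ?_, rfl⟩
    rw [el_mem_ac (mem_PP.1 hp).2.1, ias]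
    exact h3
  · rintro ⟨m, p, hp, h3, rfl⟩
    have hpB := (mem_PP.1 hp).2.1
    have hσ' := gJ_inv hM hX hσ
    refine ⟨_, _, mem_cn.2 ⟨m, ac (gJ (σ⁻¹ : Equiv.Perm (J X))) p, ac_PP hM hX hσ' hp, ?_, rfl⟩,
      ac_PP hM hX hσ' hp, ?_⟩
    · rw [el_mem_ac hpB, inv_inv]
      exact h3
    · rw [act_chk hM hX hg (hM.nat_mem m), ac_mul _ _ hpB, mul_inv_cancel, ac_one hpB]

theorem act_an {σ : Equiv.Perm (J X)} (hg : gJ σ ∈ Gr X M) (hσ : gJ σ ∈ M)
    {φ : Equiv.Perm X.ι} (hφ : ∀ j, (σ j).1 = φ j.1) (a : X.ι) :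
    act (PP X M) ac (gJ σ) (an X M (X.c a)) = an X M (X.c (φ a)) := by
  ext u
  rw [mem_act, mem_an]
  constructor
  · rintro ⟨y, c, h1, h2, rfl⟩
    obtain ⟨n, h4⟩ := mem_an.1 h1
    obtain ⟨rfl, rfl⟩ := ZFSet.pair_inj.1 h4
    rw [act_cn hM hX hg hσ, ac_empty]
    refine ⟨(σ (a, n)).2, ?_⟩
    rw [← hφ (a, n)]
  · rintro ⟨n, rfl⟩
    have h1 : φ (σ⁻¹ (φ a, n)).1 = φ a := by
      rw [← hφ, ais]
    have h2 := φ.injective h1
    have h3 : (a, (σ⁻¹ (φ a, n)).2) = σ⁻¹ (φ a, n) := Prod.ext h2.symm rfl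
    refine ⟨_, ∅, mem_an.2 ⟨(σ⁻¹ (φ a, n)).2, rfl⟩, empty_PP hM, ?_⟩
    rw [h3, act_cn hM hX hg hσ, ais, ac_empty]

theorem act_up {g x y : ZFSet.{0}} : act (PP X M) ac g (up x y) =
    up (act (PP X M) ac g x) (act (PP X M) ac g y) := by
  ext u
  rw [mem_act]
  refine Iff.trans ?_ ZFSet.mem_pair.symm
  constructor
  · rintro ⟨z, c, h1, h2, rfl⟩
    rcases ZFSet.mem_pair.1 h1 with h | h
    · obtain ⟨rfl, rfl⟩ := ZFSet.pair_inj.1 h
      exact Or.inl (by rw [ac_empty])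
    · obtain ⟨rfl, rfl⟩ := ZFSet.pair_inj.1 h
      exact Or.inr (by rw [ac_empty])
  · rintro (rfl | rfl)
    · exact ⟨x, ∅, by simp [up], empty_PP hM, by rw [ac_empty]⟩
    · exact ⟨y, ∅, by simp [up], empty_PP hM, by rw [ac_empty]⟩

theorem act_opn {g x y : ZFSet.{0}} : act (PP X M) ac g (opn x y) =
    opn (act (PP X M) ac g x) (act (PP X M) ac g y) := by
  rw [opn, act_up hM hX, act_up hM hX, act_up hM hX, opn]

/-! ### Symmetry -/

theorem cn_sn (j : J X) : cn X M (ic j) ∈ Sn M (PP X M) ac (Fl X M) := by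
  have hS := symSys hM hX
  refine mk_sn hS (cn_mem hM hX j) ?_ ⟨_, (mem_Fl hM hX).2 ⟨{j}, rfl⟩, ?_⟩
  · intro u hu
    obtain ⟨m, p, hp, h3, rfl⟩ := mem_cn.1 hu
    exact ⟨_, _, rfl, hp, (chk_sn hM (forcing_PP hM hX) hS (empty_PP hM) (fun g _ => ac_empty g)
      (hM.nat_mem m)).1.2⟩
  · intro g hg y c hyc hc
    have hgG := hS.sub _ ((mem_Fl hM hX).2 ⟨{j}, rfl⟩) hg
    obtain ⟨σ, -, h1, h2, rfl⟩ := mem_fx.1 hg
    have h3 : act (PP X M) ac (gJ σ) (cn X M (ic j)) = cn X M (ic j) := by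
      rw [act_cn hM hX hgG h1, h2 j (Finset.mem_singleton_self j)]
    rw [← h3]
    exact mem_act.2 ⟨y, c, hyc, hc, rfl⟩

theorem an_fix {a : X.ι} {g : ZFSet.{0}} (hg : g ∈ fx X M (Es {(a, 0)})) :
    act (PP X M) ac g (an X M (X.c a)) = an X M (X.c a) := by
  have hgG := (symSys hM hX).sub _ ((mem_Fl hM hX).2 ⟨{(a, 0)}, rfl⟩) hg
  obtain ⟨σ, ⟨φ, -, hφ⟩, h1, h2, rfl⟩ := mem_fx.1 hg
  have h3 := hφ (a, 0)
  rw [h2 _ (Finset.mem_singleton_self _)] at h3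
  rw [act_an hM hX hgG h1 hφ, ← h3]

theorem an_sn (a : X.ι) : an X M (X.c a) ∈ Sn M (PP X M) ac (Fl X M) := by
  refine mk_sn (symSys hM hX) (an_mem hM hX a) ?_ ⟨_, (mem_Fl hM hX).2 ⟨{(a, 0)}, rfl⟩, ?_⟩
  · intro u hu
    obtain ⟨n, rfl⟩ := mem_an.1 hu
    exact ⟨_, _, rfl, empty_PP hM, (cn_sn hM hX _).2⟩
  · intro g hg y c hyc hc
    have h3 := an_fix hM hX hg
    rw [← h3]
    exact mem_act.2 ⟨y, c, hyc, hc, rfl⟩

theorem up_sn {x y : ZFSet.{0}} (hx : x ∈ Sn M (PP X M) ac (Fl X M))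
    (hy : y ∈ Sn M (PP X M) ac (Fl X M)) : up x y ∈ Sn M (PP X M) ac (Fl X M) := by
  have hS := symSys hM hX
  obtain ⟨H, hH, h1⟩ := (hs_iff.1 hx.2).1
  obtain ⟨K, hK, h2⟩ := (hs_iff.1 hy.2).1
  obtain ⟨L, hL, hLH, hLK⟩ := hS.dir H hH K hK
  refine mk_sn hS (hM.pairing _ (hM.pair_mem hx.1 hM.empty_mem) _
    (hM.pair_mem hy.1 hM.empty_mem)) ?_ ⟨L, hL, ?_⟩
  · intro u hu
    rcases ZFSet.mem_pair.1 hu with rfl | rfl
    · exact ⟨_, _, rfl, empty_PP hM, hx.2⟩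
    · exact ⟨_, _, rfl, empty_PP hM, hy.2⟩
  · intro g hg z c hzc hc
    rcases ZFSet.mem_pair.1 hzc with h | h
    · obtain ⟨rfl, rfl⟩ := ZFSet.pair_inj.1 h
      rw [h1 g (hLH hg), ac_empty]
      exact hzc
    · obtain ⟨rfl, rfl⟩ := ZFSet.pair_inj.1 h
      rw [h2 g (hLK hg), ac_empty]
      exact hzc

theorem opn_sn {x y : ZFSet.{0}} (hx : x ∈ Sn M (PP X M) ac (Fl X M))
    (hy : y ∈ Sn M (PP X M) ac (Fl X M)) : opn x y ∈ Sn M (PP X M) ac (Fl X M) :=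
  up_sn hM hX (up_sn hM hX hx hx) (up_sn hM hX hx hy)

/-! ### Permutations in the model -/

/-- Permutations with finite support are in the model. -/
theorem gJ_fin {σ : J X → J X} {s : Finset (J X)} (h : ∀ j, j ∉ s → σ j = j) : gJ σ ∈ M := by
  have h1 : ZFSet.sep (fun u => ¬ fs u ∈ Es s) (gJ (1 : Equiv.Perm (J X))) ∈ M := by
    refine hM.sep_mem ?_ (gJ_one hM hX)
    exact (Dfn.mem (hM.fs' (DfnF.proj 0)) (DfnF.const (Es_mem hM hX s))).not
  set F : ZFSet.{0} := ZFSet.range fun j : {j : J X // j ∈ s} => pair (ic j.1) (ic (σ j.1)) with hF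
  have hmF : ∀ z, z ∈ F ↔ ∃ j ∈ s, z = pair (ic j) (ic (σ j)) := by
    intro z
    rw [hF, ZFSet.mem_range]
    constructor
    · rintro ⟨⟨j, hj⟩, rfl⟩
      exact ⟨j, hj, rfl⟩
    · rintro ⟨j, hj, rfl⟩
      exact ⟨⟨j, hj⟩, rfl⟩
  have h2 : F ∈ M := by
    refine fin_mem hM ?_ ?_
    · refine Set.Finite.subset ((s.finite_toSet).image fun j => pair (ic j) (ic (σ j))) ?_
      intro z hz
      obtain ⟨j, hj, rfl⟩ := (hmF z).1 hz
      exact ⟨j, hj, rfl⟩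
    · intro z hz
      obtain ⟨j, hj, rfl⟩ := (hmF z).1 hz
      exact hM.pair_mem (ic_mem hM hX _) (ic_mem hM hX _)
  have h3 : gJ σ = F ∪ ZFSet.sep (fun u => ¬ fs u ∈ Es s) (gJ (1 : Equiv.Perm (J X))) := by
    ext z
    rw [mem_gJ, ZFSet.mem_union, hmF, ZFSet.mem_sep, mem_gJ]
    constructor
    · rintro ⟨j, rfl⟩
      by_cases hj : j ∈ s
      · exact Or.inl ⟨j, hj, rfl⟩
      · refine Or.inr ⟨⟨j, by rw [h j hj]; rfl⟩, ?_⟩
        rw [fs_pair, mem_Es]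
        rintro ⟨i, hi, h4⟩
        rw [ic_inj] at h4
        exact hj (h4 ▸ hi)
    · rintro (⟨j, -, rfl⟩ | ⟨⟨j, rfl⟩, h4⟩)
      · exact ⟨j, rfl⟩
      · rw [fs_pair, mem_Es] at h4
        refine ⟨j, ?_⟩
        rw [h j fun hj => h4 ⟨j, hj, rfl⟩]
        rfl
  rw [h3]
  exact hM.union_mem h2 h1

omit hM hX in
/-- The permutation of the indices given by a permutation of the labelled set. -/
def lf (φ : Equiv.Perm X.ι) : Equiv.Perm (J X) where
  toFun j := (φ j.1, j.2)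
  invFun j := (φ.symm j.1, j.2)
  left_inv j := by simp
  right_inv j := by simp

theorem gJ_lf {φ : Equiv.Perm X.ι} (h1 : gp φ ∈ M) : gJ (lf φ) ∈ M := by
  have h2 : gJ (lf φ) = im (fun u => pair u (pair (ap (gp φ) (fs u)) (sn u))) (II X) := by
    ext z
    rw [mem_gJ, mem_im]
    constructor
    · rintro ⟨j, rfl⟩
      refine ⟨ic j, mem_II.2 ⟨j, rfl⟩, ?_⟩
      unfold ic
      rw [fs_pair, sn_pair, ap_gp]
      rfl
    · rintro ⟨u, hu, rfl⟩
      obtain ⟨j, rfl⟩ := mem_II.1 hu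
      refine ⟨j, ?_⟩
      unfold ic
      rw [fs_pair, sn_pair, ap_gp]
      rfl
  rw [h2]
  exact hM.im_mem (II_mem hM hX) (hM.base.pair' (DfnF.proj 0) (hM.base.pair'
    (hM.ap' (DfnF.const h1) (hM.fs' (DfnF.proj 0))) (hM.sn' (DfnF.proj 0))))

/-- Permutations of the labelled set with finite support are in the model. -/
theorem gp_fin {φ : X.ι → X.ι} {s : Finset X.ι} (h : ∀ a, a ∉ s → φ a = a) : gp φ ∈ M := by
  have hcM : ∀ a : X.ι, X.c a ∈ M := fun a => hM.trans _ hX.gam _ (code_mem a)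
  have h0 : gp (id : X.ι → X.ι) ∈ M := by
    have h : gp (id : X.ι → X.ι) = im (fun i => pair i i) X.gam := by
      ext z
      rw [mem_gp, mem_im]
      constructor
      · rintro ⟨j, rfl⟩
        exact ⟨X.c j, mem_gam.2 ⟨j, rfl⟩, rfl⟩
      · rintro ⟨i, hi, rfl⟩
        obtain ⟨j, rfl⟩ := mem_gam.1 hi
        exact ⟨j, rfl⟩
    rw [h]
    exact hM.im_mem hX.gam (hM.base.pair' (DfnF.proj 0) (DfnF.proj 0))
  set E : ZFSet.{0} := ZFSet.range fun a : {a : X.ι // a ∈ s} => X.c a.1 with hE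
  have hmE : ∀ z, z ∈ E ↔ ∃ a ∈ s, z = X.c a := by
    intro z
    rw [hE, ZFSet.mem_range]
    constructor
    · rintro ⟨⟨a, ha⟩, rfl⟩
      exact ⟨a, ha, rfl⟩
    · rintro ⟨a, ha, rfl⟩
      exact ⟨⟨a, ha⟩, rfl⟩
  have hEM : E ∈ M := by
    refine fin_mem hM ?_ ?_
    · refine Set.Finite.subset ((s.finite_toSet).image X.c) ?_
      intro z hz
      obtain ⟨j, hj, rfl⟩ := (hmE z).1 hz
      exact ⟨j, hj, rfl⟩
    · intro z hz
      obtain ⟨j, hj, rfl⟩ := (hmE z).1 hz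
      exact hcM j
  have h1 : ZFSet.sep (fun u => ¬ fs u ∈ E) (gp (id : X.ι → X.ι)) ∈ M := by
    refine hM.sep_mem ?_ h0
    exact (Dfn.mem (hM.fs' (DfnF.proj 0)) (DfnF.const hEM)).not
  set F : ZFSet.{0} := ZFSet.range fun a : {a : X.ι // a ∈ s} => pair (X.c a.1) (X.c (φ a.1))
    with hF
  have hmF : ∀ z, z ∈ F ↔ ∃ a ∈ s, z = pair (X.c a) (X.c (φ a)) := by
    intro z
    rw [hF, ZFSet.mem_range]
    constructor
    · rintro ⟨⟨j, hj⟩, rfl⟩
      exact ⟨j, hj, rfl⟩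
    · rintro ⟨j, hj, rfl⟩
      exact ⟨⟨j, hj⟩, rfl⟩
  have h2 : F ∈ M := by
    refine fin_mem hM ?_ ?_
    · refine Set.Finite.subset ((s.finite_toSet).image fun j => pair (X.c j) (X.c (φ j))) ?_
      intro z hz
      obtain ⟨j, hj, rfl⟩ := (hmF z).1 hz
      exact ⟨j, hj, rfl⟩
    · intro z hz
      obtain ⟨j, hj, rfl⟩ := (hmF z).1 hz
      exact hM.pair_mem (hcM _) (hcM _)
  have h3 : gp φ = F ∪ ZFSet.sep (fun u => ¬ fs u ∈ E) (gp (id : X.ι → X.ι)) := by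
    ext z
    rw [mem_gp, ZFSet.mem_union, hmF, ZFSet.mem_sep, mem_gp]
    constructor
    · rintro ⟨j, rfl⟩
      by_cases hj : j ∈ s
      · exact Or.inl ⟨j, hj, rfl⟩
      · refine Or.inr ⟨⟨j, by rw [h j hj]; rfl⟩, ?_⟩
        rw [fs_pair, hmE]
        rintro ⟨i, hi, h4⟩
        rw [code_inj] at h4
        exact hj (h4 ▸ hi)
    · rintro (⟨j, -, rfl⟩ | ⟨⟨j, rfl⟩, h4⟩)
      · exact ⟨j, rfl⟩
      · rw [fs_pair, hmE] at h4
        refine ⟨j, ?_⟩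
        rw [h j fun hj => h4 ⟨j, hj, rfl⟩]
        rfl
  rw [h3]
  exact hM.union_mem h2 h1

end mdl

/-- The bounds of a condition. -/
theorem exists_bd {M : Set ZFSet.{0}} {p : ZFSet.{0}} (hp : p ∈ PP X M) :
    ∃ k : ℕ, ∀ (j : J X) (m : ℕ) (b : Bool), el j m b ∈ p → m < k ∧ j.2 < k := by
  have h1 : {t : J X × ℕ × Bool | el t.1 t.2.1 t.2.2 ∈ p}.Finite := by
    refine Set.Finite.of_finite_image (f := fun t : J X × ℕ × Bool => el t.1 t.2.1 t.2.2)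
      ((mem_PP.1 hp).2.2.2.subset ?_) ?_
    · rintro _ ⟨t, ht, rfl⟩
      exact ht
    · rintro ⟨j, m, b⟩ _ ⟨j', m', b'⟩ _ h
      obtain ⟨rfl, rfl, rfl⟩ := el_inj.1 h
      rfl
  refine ⟨(h1.toFinset.sup fun t => max t.2.1 t.1.2) + 1, fun j m b h => ?_⟩
  have h2 : (j, m, b) ∈ h1.toFinset := h1.mem_toFinset.2 h
  have h3 := Finset.le_sup (f := fun t : J X × ℕ × Bool => max t.2.1 t.1.2) h2
  dsimp only at h3
  omega

/-- The indices of a condition. -/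
theorem exists_ix {M : Set ZFSet.{0}} {p : ZFSet.{0}} (hp : p ∈ PP X M) :
    ∃ D : Finset (J X), ∀ j, j ∈ D ↔ ∃ m b, el j m b ∈ p := by
  have h1 : {j : J X | ∃ m b, el j m b ∈ p}.Finite := by
    refine Set.Finite.of_finite_image (f := fun j : J X => ic j)
      (((mem_PP.1 hp).2.2.2.image fun u => fs (fs u)).subset ?_) ?_
    · rintro _ ⟨j, ⟨m, b, h⟩, rfl⟩
      refine ⟨_, h, ?_⟩
      unfold el
      dsimp only
      rw [fs_pair, fs_pair]
    · intro i _ j _ h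
      exact ic_inj.1 h
  exact ⟨h1.toFinset, fun j => h1.mem_toFinset⟩

open Classical in
/-- The exchange of the elements of `D` with their translates by `k`. -/
noncomputable def swD (D : Finset (J X)) (k : ℕ) (j : J X) : J X :=
  if j ∈ D then (j.1, j.2 + k) else if k ≤ j.2 ∧ (j.1, j.2 - k) ∈ D then (j.1, j.2 - k) else j

theorem swD_inv {D : Finset (J X)} {k : ℕ} (h : ∀ j ∈ D, j.2 < k) :
    Function.Involutive (swD D k) := by
  intro j
  by_cases h1 : j ∈ D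
  · have h2 : (j.1, j.2 + k) ∉ D := fun h3 => by
      have := h _ h3
      dsimp only at this
      omega
    have h3 : swD D k j = (j.1, j.2 + k) := if_pos h1
    rw [h3, swD, if_neg h2]
    dsimp only
    rw [Nat.add_sub_cancel, if_pos ⟨Nat.le_add_left _ _, h1⟩]
  · by_cases h2 : k ≤ j.2 ∧ (j.1, j.2 - k) ∈ D
    · have h3 : swD D k j = (j.1, j.2 - k) := by rw [swD, if_neg h1, if_pos h2]
      rw [h3, swD, if_pos h2.2]
      dsimp only
      rw [Nat.sub_add_cancel h2.1]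
    · have h3 : swD D k j = j := by rw [swD, if_neg h1, if_neg h2]
      rw [h3, h3]

theorem swD_fst (D : Finset (J X)) (k : ℕ) (j : J X) : (swD D k j).1 = j.1 := by
  unfold swD
  split_ifs <;> rfl

/-! ### Homogeneity -/

section hom

variable {M : Set ZFSet.{0}} (hM : IsZF M) (hX : X.In M)

include hM hX

/-- A permutation of the labelled set lifts to a permutation of the indices that fixes `s` and
moves the given condition to a compatible one. -/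
theorem exists_lift {s : Finset (J X)} {φ : Equiv.Perm X.ι} (hφ : gp φ ∈ M)
    (hl : ∀ a, X.lb (φ a) = X.lb a) (hfix : ∀ j ∈ s, φ j.1 = j.1) {q : ZFSet.{0}}
    (hq : q ∈ PP X M) : ∃ σ : Equiv.Perm (J X), (∀ j, (σ j).1 = φ j.1) ∧ gJ σ ∈ fx X M (Es s) ∧
      gJ σ ∈ M ∧ ∃ r ∈ PP X M, pair r q ∈ Lf (PP X M) ∧ pair r (ac (gJ σ) q) ∈ Lf (PP X M) := by
  classical
  obtain ⟨k0, hk0⟩ := exists_bd hq
  obtain ⟨D0, hD0⟩ := exists_ix hq
  set k := max k0 (s.sup (fun j => j.2) + 1) with hk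
  have hks : ∀ j ∈ s, j.2 < k := by
    intro j hj
    have := Finset.le_sup (f := fun j : J X => j.2) hj
    omega
  set D := D0 \ s with hD
  have hDk : ∀ j ∈ D, j.2 < k := by
    intro j hj
    rw [hD, Finset.mem_sdiff] at hj
    obtain ⟨m, b, h1⟩ := (hD0 j).1 hj.1
    have := (hk0 j m b h1).2
    omega
  let ρ : Equiv.Perm (J X) := (swD_inv hDk).toPerm
  have hρ : ∀ j, ρ j = swD D k j := fun j => rfl
  have hρM : gJ ρ ∈ M := by
    refine gJ_fin hM hX (s := D ∪ D.image fun j => (j.1, j.2 + k)) fun j hj => ?_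
    rw [Finset.mem_union, not_or] at hj
    rw [hρ, swD, if_neg hj.1, if_neg]
    rintro ⟨h1, h2⟩
    exact hj.2 (Finset.mem_image.2 ⟨_, h2, Prod.ext rfl (Nat.sub_add_cancel h1)⟩)
  let σ : Equiv.Perm (J X) := lf φ * ρ
  have hσ : ∀ j, σ j = (φ (swD D k j).1, (swD D k j).2) := fun j => rfl
  have hσM : gJ σ ∈ M := gJ_mul hM hX (gJ_lf hM hX hφ) hρM
  have hσφ : ∀ j, (σ j).1 = φ j.1 := by
    intro j
    rw [hσ, swD_fst]
  have hσs : ∀ j ∈ s, σ j = j := by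
    intro j hj
    have h1 : swD D k j = j := by
      rw [swD, if_neg, if_neg]
      · rintro ⟨h1, -⟩
        exact absurd (hks j hj) (not_lt.2 h1)
      · rw [hD, Finset.mem_sdiff]
        exact fun h => h.2 hj
    rw [hσ, h1, hfix j hj]
  have hfx : gJ σ ∈ fx X M (Es s) := mem_fx.2 ⟨σ, ⟨φ, hl, hσφ⟩, hσM, hσs, rfl⟩
  have hac := ac_PP hM hX hσM hq
  obtain ⟨q1, q2, q3, q4⟩ := mem_PP.1 hq
  obtain ⟨r1, r2, r3, r4⟩ := mem_PP.1 hac
  -- no conflict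
  have hcf : ∀ x b c, pair x b ∈ q → pair x c ∈ ac (gJ σ) q → b = c := by
    intro x b c hb hc
    obtain ⟨j, m, b', h2⟩ := mem_BB.1 (q2 hb)
    obtain ⟨i, n, c', h3, h4⟩ := (mem_ac q2).1 hc
    obtain ⟨rfl, rfl⟩ := ZFSet.pair_inj.1 h2
    obtain ⟨h5, rfl⟩ := ZFSet.pair_inj.1 h4
    obtain ⟨h6, h7⟩ := ZFSet.pair_inj.1 h5
    have h8 := ic_inj.1 h6
    have h9 := nat_injective h7
    subst h9
    by_cases hi : i ∈ s
    · rw [hσs i hi] at h8
      subst h8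
      exact q3 _ _ _ hb h3
    · exfalso
      have hiD : i ∈ D := by
        rw [hD, Finset.mem_sdiff]
        exact ⟨(hD0 i).2 ⟨m, c', h3⟩, hi⟩
      have h10 : σ i = (φ i.1, i.2 + k) := by
        rw [hσ, swD, if_pos hiD]
      rw [h10] at h8
      have h11 := (hk0 j m b' hb).2
      rw [h8] at h11
      dsimp only at h11
      omega
  have hr : q ∪ ac (gJ σ) q ∈ PP X M := by
    refine mem_PP.2 ⟨hM.union_mem q1 r1, ?_, ?_, ?_⟩
    · intro z hz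
      rcases ZFSet.mem_union.1 hz with hz | hz
      · exact q2 hz
      · exact r2 hz
    · intro x b c hb hc
      rcases ZFSet.mem_union.1 hb with hb | hb
      · rcases ZFSet.mem_union.1 hc with hc | hc
        · exact q3 _ _ _ hb hc
        · exact hcf x b c hb hc
      · rcases ZFSet.mem_union.1 hc with hc | hc
        · exact (hcf x c b hc hb).symm
        · exact r3 _ _ _ hb hc
    · refine (q4.union r4).subset ?_
      intro z hz
      exact ZFSet.mem_union.1 hz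
  exact ⟨σ, hσφ, hfx, hσM, _, hr, mem_Lf.2 ⟨hr, hq, fun z hz => ZFSet.mem_union.2 (Or.inl hz)⟩,
    mem_Lf.2 ⟨hr, hac, fun z hz => ZFSet.mem_union.2 (Or.inr hz)⟩⟩

/-- Homogeneity of the forcing relation. -/
theorem homog {k : ℕ} {ψ : Fml ZFSet.{0} k} (hψ : ψ.Over (Sn M (PP X M) ac (Fl X M)))
    {s : Finset (J X)} (hs : ∀ g ∈ fx X M (Es s), ψ.Over {a | act (PP X M) ac g a = a})
    {φ : Equiv.Perm X.ι} (hφ : gp φ ∈ M) (hl : ∀ a, X.lb (φ a) = X.lb a)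
    (hfix : ∀ j ∈ s, φ j.1 = j.1) {v : Fin k → X.ι} {q : ZFSet.{0}} (hq : q ∈ PP X M)
    (h : Frc (PP X M) (Lf (PP X M)) (Sn M (PP X M) ac (Fl X M)) ψ (fun i => an X M (X.c (v i))) q) :
    ∃ r ∈ PP X M, pair r q ∈ Lf (PP X M) ∧
      Frc (PP X M) (Lf (PP X M)) (Sn M (PP X M) ac (Fl X M)) ψ
        (fun i => an X M (X.c (φ (v i)))) r := by
  have hP := forcing_PP hM hX
  have hS := symSys hM hX
  obtain ⟨σ, hσφ, hfx, hσM, r, hr, hrq, hrσ⟩ := exists_lift hM hX hφ hl hfix hq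
  have hgG : gJ σ ∈ Gr X M := (ZFSet.mem_sep.1 hfx).1
  have h1 := frc_fix hM hP hS ψ hψ (fun i => an_sn hM hX (v i)) hq hgG (hs _ hfx) h
  have h2 : (act (PP X M) ac (gJ σ) ∘ fun i => an X M (X.c (v i))) =
      fun i => an X M (X.c (φ (v i))) := by
    funext i
    exact act_an hM hX hgG hσM hσφ (v i)
  rw [h2] at h1
  exact ⟨r, hr, hrq, frc_mono hP (ac_PP hM hX hσM hq) h1 hr hrσ⟩

end hom

end idx

end Pool.Agent.H158_HM
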