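import Pool.Agent.H158_HM.Gnm

/-!
# Symmetric models with a generic copy of a labelled set: the model
-/

set_option autoImplicit false
set_option linter.unreachableTactic false
set_option linter.unusedTactic false
set_option linter.unusedSectionVars false

namespace Pool.Agent.H158_HM

open Pool.Agent.W868 Pool.Agent.W868.GM Pool.Agent.Y588
open Pool.Agent.H158_AM (SymSys Sy HS act mem_act Sn Nm truthS frc_fix frc_mono qmem_act qeq_act
  frc_act supp_fml supp_vec mk_sn chk_sn hs_iff sn_act isZF_nm sepS coverS sub_nm nm_trans mem_dm'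
  dfn_frcS1 exists_nmS sat_nmS)
open ZFSet (pair)

theorem nat01 : nat 1 ≠ nat 0 := fun h => by
  have := nat_injective h
  omega

section mdl

variable {X : Ix} {M : Set ZFSet.{0}} (hM : IsZF M) (hX : X.In M) {G : ZFSet.{0}}
  (hG : IsGeneric M (PP X M) (Lf (PP X M)) G)

variable (X M G) in
/-- The generic real numbers. -/
noncomputable def CC (j : J X) : ZFSet.{0} := ev G (cn X M (ic j))

variable (X M G) in
/-- The elements of the generic set. -/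
noncomputable def AA (a : X.ι) : ZFSet.{0} := ev G (an X M (X.c a))

variable (X M G) in
/-- The model. -/
abbrev NN : Set ZFSet.{0} := Nm M (PP X M) ac (Fl X M) G

include hM hX hG

theorem empty_G : ∅ ∈ G := by
  obtain ⟨p, hp⟩ := hG.nonempty
  exact hG.up p hp ∅ (empty_PP hM) (mem_Lf.2 ⟨hG.sub hp, empty_PP hM,
    fun z hz => absurd hz (ZFSet.notMem_empty _)⟩)

theorem mem_CC {j : J X} {z : ZFSet.{0}} : z ∈ CC X M G j ↔
    ∃ m : ℕ, z = nat m ∧ ∃ p ∈ G, el j m true ∈ p := by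
  rw [CC, mem_ev]
  constructor
  · rintro ⟨y, p, h1, h2, rfl⟩
    obtain ⟨m, q, hq, h3, h4⟩ := mem_cn.1 h1
    obtain ⟨rfl, rfl⟩ := ZFSet.pair_inj.1 h4
    exact ⟨m, ev_chk (empty_G hM hX hG) _, p, h2, h3⟩
  · rintro ⟨m, rfl, p, hp, h⟩
    exact ⟨_, p, mem_cn.2 ⟨m, p, hG.sub hp, h, rfl⟩, hp, ev_chk (empty_G hM hX hG) _⟩

theorem mem_AA {a : X.ι} {z : ZFSet.{0}} : z ∈ AA X M G a ↔ ∃ n : ℕ, z = CC X M G (a, n) := by
  rw [AA, mem_ev]
  constructor
  · rintro ⟨y, p, h1, h2, rfl⟩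
    obtain ⟨n, h4⟩ := mem_an.1 h1
    obtain ⟨rfl, rfl⟩ := ZFSet.pair_inj.1 h4
    exact ⟨n, rfl⟩
  · rintro ⟨n, rfl⟩
    exact ⟨_, ∅, mem_an.2 ⟨n, rfl⟩, empty_G hM hX hG, rfl⟩

theorem CC_ne {i j : J X} (hij : i ≠ j) : CC X M G i ≠ CC X M G j := by
  have hP := forcing_PP hM hX
  have hB := hM.base
  have hd : Dfn M M fun w : Fin 1 → ZFSet.{0} => ∃ m ∈ ZFSet.omega,
      pair (pair (ic i) m) (nat 1) ∈ w 0 ∧ pair (pair (ic j) m) (nat 0) ∈ w 0 := by
    refine hB.bex (Q := fun m w => pair (pair (ic i) m) (nat 1) ∈ w 0 ∧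
      pair (pair (ic j) m) (nat 0) ∈ w 0) (DfnF.const hM.infinity) ?_
    exact (Dfn.mem (hB.pair' (hB.pair' (DfnF.const (ic_mem hM hX i)) (DfnF.proj 0))
      (DfnF.const (hM.nat_mem 1))) (DfnF.proj 1)).and
      (Dfn.mem (hB.pair' (hB.pair' (DfnF.const (ic_mem hM hX j)) (DfnF.proj 0))
      (DfnF.const (hM.nat_mem 0))) (DfnF.proj 1))
  obtain ⟨r, hr, m, hm, h1, h2⟩ := gen_dense hM hP hG (Q := fun r => ∃ m ∈ ZFSet.omega,
      pair (pair (ic i) m) (nat 1) ∈ r ∧ pair (pair (ic j) m) (nat 0) ∈ r) hd (by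
    intro q hq
    obtain ⟨k, hk⟩ := exists_bd hq
    obtain ⟨q1, q2, q3, q4⟩ := mem_PP.1 hq
    have hkn : ∀ i' b, el i' k b ∉ q := fun i' b h => by
      have := (hk i' k b h).1
      omega
    have hr : insert (el i k true) (insert (el j k false) q) ∈ PP X M := by
      refine mem_PP.2 ⟨?_, ?_, ?_, ?_⟩
      · have hel : ∀ i' b, el i' k b ∈ M := fun i' b =>
          hM.trans _ (BB_mem hM hX) _ (mem_BB.2 ⟨i', k, b, rfl⟩)
        exact hM.insert_mem (hel _ _) (hM.insert_mem (hel _ _) q1)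
      · intro z hz
        rw [ZFSet.mem_insert_iff, ZFSet.mem_insert_iff] at hz
        rcases hz with rfl | rfl | hz
        · exact mem_BB.2 ⟨_, _, _, rfl⟩
        · exact mem_BB.2 ⟨_, _, _, rfl⟩
        · exact q2 hz
      · intro a b c hb hc
        have key : ∀ b, pair a b ∈ (insert (el i k true) (insert (el j k false) q) : ZFSet.{0}) →
            (a = pair (ic i) (nat k) ∧ b = bt true) ∨ (a = pair (ic j) (nat k) ∧ b = bt false) ∨
            pair a b ∈ q := by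
          intro b hb
          rw [ZFSet.mem_insert_iff, ZFSet.mem_insert_iff] at hb
          rcases hb with h | h | h
          · exact Or.inl (ZFSet.pair_inj.1 h)
          · exact Or.inr (Or.inl (ZFSet.pair_inj.1 h))
          · exact Or.inr (Or.inr h)
        have key2 : ∀ i' : J X, pair (ic i') (nat k) = a → ∀ b, pair a b ∉ q := by
          rintro i' rfl b h
          obtain ⟨j', m', b', h3⟩ := mem_BB.1 (q2 h)
          obtain ⟨h4, rfl⟩ := ZFSet.pair_inj.1 h3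
          exact hkn i' b' h
        have hne : pair (ic i) (nat k) ≠ pair (ic j) (nat k) := fun h =>
          hij (ic_inj.1 (ZFSet.pair_inj.1 h).1)
        rcases key b hb with ⟨e1, rfl⟩ | ⟨e1, rfl⟩ | e1 <;>
          rcases key c hc with ⟨e2, rfl⟩ | ⟨e2, rfl⟩ | e2
        · rfl
        · exact absurd (e1.symm.trans e2) hne
        · exact absurd e2 (key2 i e1.symm _)
        · exact absurd (e2.symm.trans e1) hne
        · rfl
        · exact absurd e2 (key2 j e1.symm _)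
        · exact absurd e1 (key2 i e2.symm _)
        · exact absurd e1 (key2 j e2.symm _)
        · exact q3 _ _ _ e1 e2
      · have hfin : ({el i k true, el j k false} ∪ {x | x ∈ q}).Finite :=
          (Set.toFinite _).union q4
        refine hfin.subset fun z hz => ?_
        have hz' : z ∈ (insert (el i k true) (insert (el j k false) q) : ZFSet.{0}) := hz
        rw [ZFSet.mem_insert_iff, ZFSet.mem_insert_iff] at hz'
        rcases hz' with rfl | rfl | hz'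
        · exact Or.inl (by simp)
        · exact Or.inl (by simp)
        · exact Or.inr hz'
    refine ⟨_, hr, mem_Lf.2 ⟨hr, hq, fun z hz => ?_⟩, nat k, nat_mem_omega k, ?_, ?_⟩
    · rw [ZFSet.mem_insert_iff, ZFSet.mem_insert_iff]
      exact Or.inr (Or.inr hz)
    · rw [ZFSet.mem_insert_iff]
      exact Or.inl rfl
    · rw [ZFSet.mem_insert_iff, ZFSet.mem_insert_iff]
      exact Or.inr (Or.inl rfl))
  obtain ⟨m, rfl⟩ := mem_omega_iff.1 hm
  intro hcon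
  have h3 : nat m ∈ CC X M G i := (mem_CC hM hX hG).2 ⟨m, rfl, r, hr, h1⟩
  rw [hcon, mem_CC hM hX hG] at h3
  obtain ⟨m', h4, p, hp, h5⟩ := h3
  have h6 := nat_injective h4
  subst h6
  obtain ⟨q, hq, hqr, hqp⟩ := hG.dir r hr p hp
  have h7 := (mem_Lf.1 hqr).2.2 h2
  have h8 := (mem_Lf.1 hqp).2.2 h5
  have h9 := (mem_PP.1 (hG.sub hq)).2.2.1 _ _ _ h7 h8
  exact nat01 (show nat 0 = nat 1 from h9).symm

theorem CC_inj {i j : J X} : CC X M G i = CC X M G j ↔ i = j :=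
  ⟨fun h => by
    by_contra hcon
    exact CC_ne hM hX hG hcon h, fun h => by rw [h]⟩

theorem AA_inj {a b : X.ι} : AA X M G a = AA X M G b ↔ a = b := by
  constructor
  · intro h
    have h1 : CC X M G (a, 0) ∈ AA X M G a := (mem_AA hM hX hG).2 ⟨0, rfl⟩
    rw [h, mem_AA hM hX hG] at h1
    obtain ⟨n, h2⟩ := h1
    rw [CC_inj hM hX hG] at h2
    exact (Prod.ext_iff.1 h2).1
  · rintro rfl
    rfl

theorem zfN : IsZF (NN X M G) := isZF_nm hM (forcing_PP hM hX) (symSys hM hX) hG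

theorem subN : M ⊆ NN X M G := sub_nm hM (forcing_PP hM hX) (symSys hM hX) hG

theorem AA_mem (a : X.ι) : AA X M G a ∈ NN X M G := ⟨_, an_sn hM hX a, rfl⟩

/-- Homogeneity, for formulas with names. -/
theorem homS {k : ℕ} {ψ : Fml ZFSet.{0} k} (hψ : ψ.Over (Sn M (PP X M) ac (Fl X M))) :
    ∃ e : Finset X.ι, ∀ φ : Equiv.Perm X.ι, gp φ ∈ M → (∀ a, X.lb (φ a) = X.lb a) →
      (∀ a ∈ e, φ a = a) → ∀ v : Fin k → X.ι,
        Sat (NN X M G) (ev G) ψ (fun i => AA X M G (v i)) →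
          Sat (NN X M G) (ev G) ψ (fun i => AA X M G (φ (v i))) := by
  classical
  have hP := forcing_PP hM hX
  have hS := symSys hM hX
  obtain ⟨H, hH, h1⟩ := supp_fml hP hS ψ hψ
  obtain ⟨s, rfl⟩ := (mem_Fl hM hX).1 hH
  refine ⟨s.image Prod.fst, fun φ hφ hl hfix v h => ?_⟩
  have hv : ∀ v : Fin k → X.ι, (fun i => AA X M G (v i)) = ev G ∘ fun i => an X M (X.c (v i)) :=
    fun v => rfl
  rw [hv, truthS hM hP hS hG ψ hψ _ fun i => an_sn hM hX (v i)] at h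
  obtain ⟨p, hp, h2⟩ := h
  rw [hv fun i => φ (v i), truthS hM hP hS hG ψ hψ _ fun i => an_sn hM hX (φ (v i))]
  obtain ⟨r, hr, -, h3⟩ := gen_below hM hP hG (Q := fun r =>
      Frc (PP X M) (Lf (PP X M)) (Sn M (PP X M) ac (Fl X M)) ψ
        (fun i => an X M (X.c (φ (v i)))) r)
    (dfn_frcS1 hM hP hS ψ (Fml.Over.mono (S := Sn M (PP X M) ac (Fl X M)) (fun _ h => h.1) hψ)
      fun i => an_mem hM hX _) hp (by
    intro q hq hqp
    exact homog hM hX hψ h1 hφ hl (fun j hj => hfix _ (Finset.mem_image_of_mem _ hj)) hq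
      (frc_mono hP (hG.sub hp) h2 hq hqp))
  exact ⟨r, hr, h3⟩

/-- Homogeneity of the generic set. -/
theorem hom {k : ℕ} {Q : (Fin k → ZFSet.{0}) → Prop} (hQ : Dfn (NN X M G) (NN X M G) Q) :
    ∃ e : Finset X.ι, ∀ φ : Equiv.Perm X.ι, gp φ ∈ M → (∀ a, X.lb (φ a) = X.lb a) →
      (∀ a ∈ e, φ a = a) → ∀ v : Fin k → X.ι,
        Q (fun i => AA X M G (v i)) → Q (fun i => AA X M G (φ (v i))) := by
  obtain ⟨ψ, h1, h2⟩ := hQ
  obtain ⟨nm, hnm⟩ := exists_nmS (G := G) (NN X M G) (Sn M (PP X M) ac (Fl X M)) rfl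
  have h3 := fun v => sat_nmS hnm ψ h1 v
  obtain ⟨e, he⟩ := homS hM hX hG (h3 fun _ => ∅).2
  refine ⟨e, fun φ hφ hl hfix v h => ?_⟩
  rw [← h2 _ fun i => AA_mem hM hX hG _, (h3 _).1] at h ⊢
  exact he φ hφ hl hfix v h

/-! ### The generic set -/

omit hM hX hG in
variable (X M G) in
/-- The generic set. -/
noncomputable def AS : ZFSet.{0} := ZFSet.range fun a : X.ι => AA X M G a

omit hM hX hG in
theorem mem_AS {z : ZFSet.{0}} : z ∈ AS X M G ↔ ∃ a, z = AA X M G a := by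
  rw [AS, ZFSet.mem_range]
  constructor
  · rintro ⟨a, rfl⟩
    exact ⟨a, rfl⟩
  · rintro ⟨a, rfl⟩
    exact ⟨a, rfl⟩

omit hM hX hG in
/-- The name of the generic set. -/
noncomputable def AN (X : Ix) (M : Set ZFSet.{0}) : ZFSet.{0} := ZFSet.prod (im (an X M) X.gam) {∅}

omit hG in
theorem im_an_mem : im (an X M) X.gam ∈ M := hM.im_mem hX.gam (dfn_an hM hX (DfnF.proj 0))

omit hM hX hG in
theorem mem_im_an {z : ZFSet.{0}} : z ∈ im (an X M) X.gam ↔ ∃ a, z = an X M (X.c a) := by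
  rw [mem_im]
  constructor
  · rintro ⟨y, hy, rfl⟩
    obtain ⟨a, rfl⟩ := mem_gam.1 hy
    exact ⟨a, rfl⟩
  · rintro ⟨a, rfl⟩
    exact ⟨_, code_mem a, rfl⟩

omit hM hX hG in
theorem mem_AN {z : ZFSet.{0}} : z ∈ AN X M ↔ ∃ a, z = pair (an X M (X.c a)) ∅ := by
  rw [AN, ZFSet.mem_prod]
  constructor
  · rintro ⟨x, hx, y, hy, rfl⟩
    obtain ⟨a, rfl⟩ := mem_im_an.1 hx
    rw [ZFSet.mem_singleton] at hy
    subst hy
    exact ⟨a, rfl⟩
  · rintro ⟨a, rfl⟩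
    exact ⟨_, mem_im_an.2 ⟨a, rfl⟩, ∅, by simp, rfl⟩

omit hM hX hG in
theorem dm_AN : dm (AN X M) = im (an X M) X.gam := by
  ext z
  rw [mem_dm', mem_im_an]
  constructor
  · rintro ⟨u, hu, rfl⟩
    obtain ⟨a, rfl⟩ := mem_AN.1 hu
    exact ⟨a, fs_pair _ _⟩
  · rintro ⟨a, rfl⟩
    exact ⟨_, mem_AN.2 ⟨a, rfl⟩, (fs_pair _ _).symm⟩

omit hG in
theorem AN_sn : AN X M ∈ Sn M (PP X M) ac (Fl X M) := by
  refine mk_sn (symSys hM hX) (hM.prod_mem (im_an_mem hM hX) (hM.single_mem hM.empty_mem)) ?_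
    ⟨_, (mem_Fl hM hX).2 ⟨∅, rfl⟩, ?_⟩
  · intro u hu
    obtain ⟨a, rfl⟩ := mem_AN.1 hu
    exact ⟨_, _, rfl, empty_PP hM, (an_sn hM hX a).2⟩
  · intro g hg y c hyc hc
    obtain ⟨a, h1⟩ := mem_AN.1 hyc
    obtain ⟨rfl, rfl⟩ := ZFSet.pair_inj.1 h1
    have hgG : g ∈ Gr X M := (ZFSet.mem_sep.1 hg).1
    obtain ⟨σ, ⟨φ, hφ, hσφ⟩, h1, h2, rfl⟩ := mem_fx.1 hg
    rw [act_an hM hX hgG h1 hσφ, ac_empty]
    exact mem_AN.2 ⟨_, rfl⟩

theorem ev_AN : ev G (AN X M) = AS X M G := by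
  ext z
  rw [mem_ev, mem_AS]
  constructor
  · rintro ⟨y, p, h1, -, rfl⟩
    obtain ⟨a, h2⟩ := mem_AN.1 h1
    obtain ⟨rfl, rfl⟩ := ZFSet.pair_inj.1 h2
    exact ⟨a, rfl⟩
  · rintro ⟨a, rfl⟩
    exact ⟨_, ∅, mem_AN.2 ⟨a, rfl⟩, empty_G hM hX hG, rfl⟩

theorem AS_mem : AS X M G ∈ NN X M G := ⟨_, AN_sn hM hX, ev_AN hM hX hG⟩

theorem ev_up {x y : ZFSet.{0}} : ev G (up x y) = {ev G x, ev G y} := by
  ext z
  rw [mem_ev, ZFSet.mem_pair]
  constructor
  · rintro ⟨w, p, h1, -, rfl⟩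
    rcases ZFSet.mem_pair.1 h1 with h | h
    · obtain ⟨rfl, rfl⟩ := ZFSet.pair_inj.1 h
      exact Or.inl rfl
    · obtain ⟨rfl, rfl⟩ := ZFSet.pair_inj.1 h
      exact Or.inr rfl
  · rintro (rfl | rfl)
    · exact ⟨x, ∅, by simp [up], empty_G hM hX hG, rfl⟩
    · exact ⟨y, ∅, by simp [up], empty_G hM hX hG, rfl⟩

theorem ev_opn {x y : ZFSet.{0}} : ev G (opn x y) = pair (ev G x) (ev G y) := by
  rw [opn, ev_up hM hX hG, ev_up hM hX hG, ev_up hM hX hG, pair]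
  congr 1
  ext z
  simp

omit hM hX hG in
variable (X M G) in
/-- The labels of the elements of the generic set. -/
noncomputable def LB : ZFSet.{0} := ZFSet.range fun a : X.ι => pair (AA X M G a) (X.lb a)

omit hM hX hG in
theorem mem_LB {z : ZFSet.{0}} : z ∈ LB X M G ↔ ∃ a, z = pair (AA X M G a) (X.lb a) := by
  rw [LB, ZFSet.mem_range]
  constructor
  · rintro ⟨a, rfl⟩
    exact ⟨a, rfl⟩
  · rintro ⟨a, rfl⟩
    exact ⟨a, rfl⟩

omit hG in
theorem lb_mem (a : X.ι) : X.lb a ∈ M := by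
  have h := hM.trans _ hX.lbz _ (mem_lbz.2 ⟨a, rfl⟩)
  exact (hM.of_pair_mem h).2

theorem LB_mem : LB X M G ∈ NN X M G := by
  have hS := symSys hM hX
  have hY : im (fun u => opn (an X M (fs u)) (chk ∅ (sn u))) X.lbz ∈ M := by
    refine hM.im_mem hX.lbz ?_
    exact dfn_opn hM hX (dfn_an hM hX (hM.fs' (DfnF.proj 0)))
      (DfnF.comp1 (f := chk ∅) (dfn_chk hM hM.empty_mem) (hM.sn' (DfnF.proj 0)))
  have hmY : ∀ z, z ∈ im (fun u => opn (an X M (fs u)) (chk ∅ (sn u))) X.lbz ↔ ∃ a,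
      z = opn (an X M (X.c a)) (chk ∅ (X.lb a)) := by
    intro z
    rw [mem_im]
    constructor
    · rintro ⟨u, hu, rfl⟩
      obtain ⟨a, rfl⟩ := mem_lbz.1 hu
      rw [fs_pair, sn_pair]
      exact ⟨a, rfl⟩
    · rintro ⟨a, rfl⟩
      refine ⟨_, mem_lbz.2 ⟨a, rfl⟩, ?_⟩
      rw [fs_pair, sn_pair]
  have hchk : ∀ a, chk ∅ (X.lb a) ∈ Sn M (PP X M) ac (Fl X M) := fun a =>
    (chk_sn hM (forcing_PP hM hX) hS (empty_PP hM) (fun g _ => ac_empty g) (lb_mem hM hX a)).1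
  obtain ⟨Y, hY, h1⟩ := coverS hM (forcing_PP hM hX) hS hG hY (by
      intro x hx
      obtain ⟨a, rfl⟩ := (hmY x).1 hx
      exact (opn_sn hM hX (an_sn hM hX _) (hchk a)).2)
      ⟨_, (mem_Fl hM hX).2 ⟨∅, rfl⟩, by
      intro g hg x hx
      obtain ⟨a, rfl⟩ := (hmY x).1 hx
      have hgG : g ∈ Gr X M := (ZFSet.mem_sep.1 hg).1
      obtain ⟨σ, ⟨φ, hφ, hσφ⟩, h1, h2, rfl⟩ := mem_fx.1 hg
      rw [act_opn hM hX, act_an hM hX hgG h1 hσφ, act_chk hM hX hgG (lb_mem hM hX a), ← hφ a]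
      exact (hmY _).2 ⟨_, rfl⟩⟩
  have h2 : Y = LB X M G := by
    ext z
    rw [h1, mem_LB]
    constructor
    · rintro ⟨x, hx, rfl⟩
      obtain ⟨a, rfl⟩ := (hmY x).1 hx
      refine ⟨a, ?_⟩
      rw [ev_opn hM hX hG, ev_chk (empty_G hM hX hG)]
      rfl
    · rintro ⟨a, rfl⟩
      refine ⟨_, (hmY _).2 ⟨a, rfl⟩, ?_⟩
      rw [ev_opn hM hX hG, ev_chk (empty_G hM hX hG)]
      rfl
  exact h2 ▸ hY

end mdl

end Pool.Agent.H158_HM
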