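import Pool.Agent.W868.Defs

/-!
# Ramsey theorems for pairs in a transitive model of ZF: the definitions

Everything takes place inside the type `ZFSet.{0}` of all sets. A set (in the sense of Mathlib)
`N : Set ZFSet.{0}` is viewed as the structure `(N, ∈)`. Transitive models of ZF (`IsZF`), the
natural numbers as sets (`nat n = {0, …, n - 1}`) and bijections (`IsBij`) are the ones of
`Pool.Agent.W868.Defs`; `pair` is the Kuratowski pair, and `ZFSet.IsFunc x y f` says that `f` is a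
function from `x` to `y`.
-/

set_option autoImplicit false

namespace Pool.Agent.H158_HM.Ram

open ZFSet (pair)
open Pool.Agent.W868

/-- The set `[X]²` of all 2-element subsets of `X`. -/
noncomputable def pairs (X : ZFSet.{0}) : ZFSet.{0} :=
  ZFSet.sep (fun p => ∃ x ∈ X, ∃ y ∈ X, x ≠ y ∧ p = {x, y}) (ZFSet.powerset X)

/-- In the transitive class `N`, the set `Y` is infinite: there is no bijection in `N` from a
natural number to `Y`. -/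
def Infinite (N : Set ZFSet.{0}) (Y : ZFSet.{0}) : Prop :=
  ¬ ∃ n : ℕ, ∃ g ∈ N, IsBij (nat n) Y g

/-- `RT²_n(X)` in `N`: for every `c : [X]² → n` in `N` there is an infinite `Y ⊆ X` in `N` such
that `c` is constant on `[Y]²`. -/
def RT (N : Set ZFSet.{0}) (n : ℕ) (X : ZFSet.{0}) : Prop :=
  ∀ c ∈ N, ZFSet.IsFunc (pairs X) (nat n) c → ∃ Y ∈ N, Y ⊆ X ∧ Infinite N Y ∧
    ∃ k, ∀ x ∈ Y, ∀ y ∈ Y, x ≠ y → pair {x, y} k ∈ c

/-- `r` is (the set of all pairs `(x, y)` with `x < y` of) a strict linear order of `Y`. -/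
structure IsLinearOrder (Y r : ZFSet.{0}) : Prop where
  irrefl : ∀ x ∈ Y, pair x x ∉ r
  trans : ∀ x ∈ Y, ∀ y ∈ Y, ∀ z ∈ Y, pair x y ∈ r → pair y z ∈ r → pair x z ∈ r
  total : ∀ x ∈ Y, ∀ y ∈ Y, x ≠ y → pair x y ∈ r ∨ pair y x ∈ r

/-- `f {a₁, b₁} = f {a₂, b₂}`. -/
def Same (f a₁ b₁ a₂ b₂ : ZFSet.{0}) : Prop := ∃ k, pair {a₁, b₁} k ∈ f ∧ pair {a₂, b₂} k ∈ f

/-- For all `a₁ < b₁` and `a₂ < b₂` in `Y`, the statement `Q a₁ b₁ a₂ b₂` holds. -/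
def Inc (Y r : ZFSet.{0}) (Q : ZFSet.{0} → ZFSet.{0} → ZFSet.{0} → ZFSet.{0} → Prop) : Prop :=
  ∀ a₁ ∈ Y, ∀ b₁ ∈ Y, ∀ a₂ ∈ Y, ∀ b₂ ∈ Y, pair a₁ b₁ ∈ r → pair a₂ b₂ ∈ r → Q a₁ b₁ a₂ b₂

/-- The function `f` on `[X]²` is canonical on `(Y, r)`. -/
def Canonical (Y r f : ZFSet.{0}) : Prop :=
  Inc Y r (fun a₁ b₁ a₂ b₂ => Same f a₁ b₁ a₂ b₂) ∨
  Inc Y r (fun a₁ b₁ a₂ b₂ => Same f a₁ b₁ a₂ b₂ ↔ a₁ = a₂) ∨
  Inc Y r (fun a₁ b₁ a₂ b₂ => Same f a₁ b₁ a₂ b₂ ↔ b₁ = b₂) ∨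
  Inc Y r (fun a₁ b₁ a₂ b₂ => Same f a₁ b₁ a₂ b₂ ↔ a₁ = a₂ ∧ b₁ = b₂)

/-- `CRT(X)` in `N`: for every `f : [X]² → C` in `N` there are an infinite `Y ⊆ X` in `N` and a
linear order of `Y` in `N` on which `f` is canonical. -/
def CRT (N : Set ZFSet.{0}) (X : ZFSet.{0}) : Prop :=
  ∀ C ∈ N, ∀ f ∈ N, ZFSet.IsFunc (pairs X) C f → ∃ Y ∈ N, Y ⊆ X ∧ Infinite N Y ∧
    ∃ r ∈ N, IsLinearOrder Y r ∧ Canonical Y r f

end Pool.Agent.H158_HM.Ram
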