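import Pool.Agent.H158_HM.Mod
import Pool.Agent.H158_HM.RamDefs

/-!
# A set for which the theorem of Ramsey holds and the canonical one fails
-/

set_option autoImplicit false
set_option linter.unreachableTactic false
set_option linter.unusedTactic false
set_option linter.unusedSectionVars false

namespace Pool.Agent.H158_HM.Ram

open Pool.Agent.W868 Pool.Agent.W868.GM Pool.Agent.Y588 Pool.Agent.H158_HM
open ZFSet (pair)

/-- A countable set with one label. -/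
noncomputable def X0 : Ix where
  ι := ℕ
  c := nat
  lb _ := ∅
  inj := nat_injective

theorem gam_X0 : X0.gam = ZFSet.omega := by
  ext z
  rw [mem_gam, mem_omega_iff]
  rfl

theorem in_X0 {M : Set ZFSet.{0}} (hM : IsZF M) : X0.In M where
  gam := by
    rw [gam_X0]
    exact hM.infinity
  lbz := by
    have h : X0.lbz = ZFSet.prod ZFSet.omega {∅} := by
      ext z
      rw [mem_lbz, ZFSet.mem_prod]
      constructor
      · rintro ⟨a, rfl⟩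
        exact ⟨_, nat_mem_omega a, ∅, by simp, rfl⟩
      · rintro ⟨a, ha, b, hb, rfl⟩
        obtain ⟨n, rfl⟩ := mem_omega_iff.1 ha
        rw [ZFSet.mem_singleton] at hb
        subst hb
        exact ⟨n, rfl⟩
    rw [h]
    exact hM.prod_mem hM.infinity (hM.single_mem hM.empty_mem)

/-- Infinite sets are infinite in the model. -/
theorem infinite_of {N : Set ZFSet.{0}} {Y : ZFSet.{0}} (h : ¬ Fi Y) : Infinite N Y := by
  rintro ⟨n, g, -, ⟨⟨⟨h1, h2⟩, -⟩, h3⟩⟩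
  refine h ((Set.Finite.image (fun i : ℕ => ap g (nat i)) (Set.finite_lt_nat n)).subset ?_)
  intro y hy
  obtain ⟨a, ha, hay⟩ := h3 y hy
  obtain ⟨i, hi, rfl⟩ := mem_nat.1 ha
  refine ⟨i, hi, ap_unique fun q => ⟨?_, ?_⟩⟩
  · rintro ⟨hq, hq'⟩
    obtain ⟨a, ha', b, hb, rfl⟩ := ZFSet.mem_prod.1 (h1 hq)
    rw [fs_pair] at hq'
    subst hq'
    obtain ⟨w, -, hw⟩ := h2 _ ha
    rw [hw _ hq, hw _ hay]
  · rintro rfl
    exact ⟨hay, fs_pair _ _⟩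

/-- Finite sets of elements of the model are finite in the model. -/
theorem bij_of_fi {N : Set ZFSet.{0}} (hN : IsZF N) {Y : ZFSet.{0}} (hY : Y ∈ N) (h : Fi Y) :
    ∃ n : ℕ, ∃ g ∈ N, IsBij (nat n) Y g := by
  classical
  have hfin : Finite {x // x ∈ Y} := h
  obtain ⟨n, ⟨e⟩⟩ := Finite.exists_equiv_fin {x // x ∈ Y}
  set g : ZFSet.{0} := ZFSet.range fun i : Fin n => pair (nat i) (e.symm i).1 with hg
  have hmg : ∀ z, z ∈ g ↔ ∃ i : Fin n, z = pair (nat i) (e.symm i).1 := by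
    intro z
    rw [hg, ZFSet.mem_range]
    constructor
    · rintro ⟨i, rfl⟩
      exact ⟨i, rfl⟩
    · rintro ⟨i, rfl⟩
      exact ⟨i, rfl⟩
  refine ⟨n, g, fin_mem hN ?_ ?_, ⟨⟨⟨?_, ?_⟩, ?_⟩, ?_⟩⟩
  · refine (Set.finite_range fun i : Fin n => pair (nat i) (e.symm i).1).subset ?_
    intro z hz
    obtain ⟨i, rfl⟩ := (hmg z).1 hz
    exact ⟨i, rfl⟩
  · intro z hz
    obtain ⟨i, rfl⟩ := (hmg z).1 hz
    exact hN.pair_mem (hN.nat_mem _) (hN.trans _ hY _ (e.symm i).2)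
  · intro z hz
    obtain ⟨i, rfl⟩ := (hmg z).1 hz
    exact ZFSet.pair_mem_prod.2 ⟨nat_mem_iff.2 i.2, (e.symm i).2⟩
  · intro z hz
    obtain ⟨i, hi, rfl⟩ := mem_nat.1 hz
    refine ⟨_, (hmg _).2 ⟨⟨i, hi⟩, rfl⟩, fun w hw => ?_⟩
    obtain ⟨j, hj⟩ := (hmg _).1 hw
    obtain ⟨h1, rfl⟩ := ZFSet.pair_inj.1 hj
    have h2 : j = ⟨i, hi⟩ := Fin.ext (nat_injective h1).symm
    rw [h2]
  · intro a b c ha hb
    obtain ⟨i, hi⟩ := (hmg _).1 ha
    obtain ⟨j, hj⟩ := (hmg _).1 hb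
    obtain ⟨rfl, rfl⟩ := ZFSet.pair_inj.1 hi
    obtain ⟨rfl, h1⟩ := ZFSet.pair_inj.1 hj
    have h2 : i = j := e.symm.injective (Subtype.ext h1)
    rw [h2]
  · intro b hb
    refine ⟨nat (e ⟨b, hb⟩), nat_mem_iff.2 (e ⟨b, hb⟩).2, (hmg _).2 ⟨e ⟨b, hb⟩, ?_⟩⟩
    rw [Equiv.symm_apply_apply]

theorem not_fi {N : Set ZFSet.{0}} (hN : IsZF N) {Y : ZFSet.{0}} (hY : Y ∈ N)
    (h : Infinite N Y) : ¬ Fi Y := fun h' => h (bij_of_fi hN hY h')

theorem mem_pairs {X p : ZFSet.{0}} : p ∈ pairs X ↔ ∃ x ∈ X, ∃ y ∈ X, x ≠ y ∧ p = {x, y} := by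
  rw [pairs, ZFSet.mem_sep]
  constructor
  · exact fun h => h.2
  · rintro ⟨x, hx, y, hy, hxy, rfl⟩
    refine ⟨?_, x, hx, y, hy, hxy, rfl⟩
    rw [ZFSet.mem_powerset]
    intro z hz
    rcases ZFSet.mem_pair.1 hz with rfl | rfl
    · exact hx
    · exact hy

theorem pairs_mem {N : Set ZFSet.{0}} (hN : IsZF N) {X : ZFSet.{0}} (hX : X ∈ N) :
    pairs X ∈ N := by
  have hB := hN.base
  have h : pairs X = im (fun u => ({fs u, sn u} : ZFSet.{0}))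
      (ZFSet.sep (fun u => ¬ fs u = sn u) (ZFSet.prod X X)) := by
    ext p
    rw [mem_pairs, mem_im]
    constructor
    · rintro ⟨x, hx, y, hy, hxy, rfl⟩
      refine ⟨pair x y, ZFSet.mem_sep.2 ⟨ZFSet.pair_mem_prod.2 ⟨hx, hy⟩, ?_⟩, ?_⟩
      · rw [fs_pair, sn_pair]
        exact hxy
      · rw [fs_pair, sn_pair]
    · rintro ⟨u, hu, rfl⟩
      obtain ⟨h1, h2⟩ := ZFSet.mem_sep.1 hu
      obtain ⟨x, hx, y, hy, rfl⟩ := ZFSet.mem_prod.1 h1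
      rw [fs_pair, sn_pair] at h2 ⊢
      exact ⟨x, hx, y, hy, h2, rfl⟩
  rw [h]
  refine hN.im_mem (hN.sep_mem ?_ (hN.prod_mem hX hX)) ?_
  · exact (Dfn.eq (hN.fs' (DfnF.proj 0)) (hN.sn' (DfnF.proj 0))).not
  · exact hB.upair' (hN.fs' (DfnF.proj 0)) (hN.sn' (DfnF.proj 0))

/-- Extension of a partial permutation. -/
theorem exists_move (e : Finset ℕ) {i j i' j' : ℕ} (hi : i ∉ e) (hj : j ∉ e) (hi' : i' ∉ e)
    (hj' : j' ∉ e) (hij : i ≠ j) (hij' : i' ≠ j') : ∃ φ : Equiv.Perm ℕ,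
      (∃ s : Finset ℕ, ∀ a, a ∉ s → φ a = a) ∧ (∀ a ∈ e, φ a = a) ∧ φ i = i' ∧ φ j = j' := by
  classical
  set σ := Equiv.swap i i' with hσ
  have h1 : σ j ≠ i' := by
    intro h
    have h' : σ j = σ i := by rw [h, hσ, Equiv.swap_apply_left]
    exact hij (σ.injective h').symm
  have h2 : ∀ a, a ≠ i → a ≠ i' → σ a = a := fun a h h' => Equiv.swap_apply_of_ne_of_ne h h'
  have h3 : σ j ∉ e := by
    by_cases h : j = i'
    · rw [h, hσ, Equiv.swap_apply_right]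
      exact hi
    · rw [h2 j hij.symm h]
      exact hj
  have h4 : ∀ a, a ≠ σ j → a ≠ j' → Equiv.swap (σ j) j' a = a :=
    fun a h h' => Equiv.swap_apply_of_ne_of_ne h h'
  refine ⟨Equiv.swap (σ j) j' * σ, ⟨{i, i', σ j, j'}, fun a ha => ?_⟩, fun a ha => ?_, ?_, ?_⟩
  · simp only [Finset.mem_insert, Finset.mem_singleton, not_or] at ha
    rw [Equiv.Perm.mul_apply, h2 a ha.1 ha.2.1, h4 a ha.2.2.1 ha.2.2.2]
  · rw [Equiv.Perm.mul_apply, h2 a (fun h => hi (h ▸ ha)) (fun h => hi' (h ▸ ha)),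
      h4 a (fun h => h3 (h ▸ ha)) (fun h => hj' (h ▸ ha))]
  · rw [Equiv.Perm.mul_apply, hσ, Equiv.swap_apply_left, ← hσ, h4 i' h1.symm hij']
  · rw [Equiv.Perm.mul_apply, Equiv.swap_apply_left]

section mdl

variable {M : Set ZFSet.{0}} (hM : IsZF M) {G : ZFSet.{0}}
  (hG : IsGeneric M (PP X0 M) (Lf (PP X0 M)) G)

include hM hG

theorem not_fi_sub {Y : ZFSet.{0}} (hYA : Y ⊆ AS X0 M G) (h : ¬ Fi Y) (e : Finset ℕ) :
    ∃ i j : ℕ, i ∉ e ∧ j ∉ e ∧ i ≠ j ∧ AA X0 M G i ∈ Y ∧ AA X0 M G j ∈ Y := by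
  classical
  have h1 : ¬ {i : ℕ | AA X0 M G i ∈ Y}.Finite := by
    intro h2
    refine h ((h2.image fun i => AA X0 M G i).subset ?_)
    intro z hz
    obtain ⟨i, rfl⟩ := mem_AS.1 (hYA hz)
    exact ⟨i, hz, rfl⟩
  have h2 : ({i : ℕ | AA X0 M G i ∈ Y} \ e).Infinite :=
    Set.Infinite.diff h1 e.finite_toSet
  obtain ⟨i, hi, j, hj, hij⟩ := h2.nontrivial
  exact ⟨i, j, hi.2, hj.2, hij, hi.1, hj.1⟩

theorem ramsey (n : ℕ) : RT (NN X0 M G) n (AS X0 M G) := by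
  classical
  have hX := in_X0 hM
  have hN : IsZF (NN X0 M G) := zfN hM hX hG
  have hB := hN.base
  have hA : AS X0 M G ∈ NN X0 M G := AS_mem hM hX hG
  intro c hc hcf
  have h1 : ∀ k : ℕ, Dfn (NN X0 M G) (NN X0 M G) fun v : Fin 2 → ZFSet.{0} =>
      pair {v 0, v 1} (nat k) ∈ c := fun k =>
    Dfn.mem (hB.pair' (hB.upair' (DfnF.proj 0) (DfnF.proj 1)) (DfnF.const (hN.nat_mem k)))
      (DfnF.const hc)
  choose e he using fun k => hom hM hX hG (h1 k)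
  set E : Finset ℕ := (Finset.range n).biUnion e with hE
  have hEk : ∀ k < n, ∀ a, a ∉ E → a ∉ e k := by
    intro k hk a ha h
    exact ha (Finset.mem_biUnion.2 ⟨k, Finset.mem_range.2 hk, h⟩)
  have hEk' : ∀ k < n, ∀ a ∈ e k, a ∈ E := fun k hk a ha => by
    by_contra h
    exact hEk k hk a h ha
  -- the infinite set
  set F : ZFSet.{0} := ZFSet.range fun a : {a : ℕ // a ∈ E} => AA X0 M G a.1 with hF
  have hmF : ∀ z, z ∈ F ↔ ∃ a ∈ E, z = AA X0 M G a := by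
    intro z
    rw [hF, ZFSet.mem_range]
    constructor
    · rintro ⟨⟨a, ha⟩, rfl⟩
      exact ⟨a, ha, rfl⟩
    · rintro ⟨a, ha, rfl⟩
      exact ⟨⟨a, ha⟩, rfl⟩
  have hFf : Fi F := by
    refine ((E.finite_toSet).image fun a => AA X0 M G a).subset ?_
    intro z hz
    obtain ⟨a, ha, rfl⟩ := (hmF z).1 hz
    exact ⟨a, ha, rfl⟩
  have hFN : F ∈ NN X0 M G := by
    refine fin_mem hN hFf fun z hz => ?_
    obtain ⟨a, -, rfl⟩ := (hmF z).1 hz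
    exact AA_mem hM hX hG a
  have hAinf : ¬ Fi (AS X0 M G) := by
    intro h
    have h2 : Set.Finite (Set.range fun a : ℕ => AA X0 M G a) := by
      refine h.subset ?_
      rintro _ ⟨a, rfl⟩
      exact mem_AS.2 ⟨a, rfl⟩
    haveI : _root_.Infinite X0.ι := inferInstanceAs (_root_.Infinite ℕ)
    exact Set.infinite_range_of_injective (fun a b h => (AA_inj hM hX hG).1 h) h2
  set Y : ZFSet.{0} := ZFSet.sep (fun z => ¬ z ∈ F) (AS X0 M G) with hY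
  have hYN : Y ∈ NN X0 M G := by
    refine hN.sep_mem ?_ hA
    exact (Dfn.mem (DfnF.proj 0) (DfnF.const hFN)).not
  have hYA : Y ⊆ AS X0 M G := fun z hz => (ZFSet.mem_sep.1 hz).1
  have hYinf : ¬ Fi Y := by
    intro h
    refine hAinf ((h.union hFf).subset ?_)
    intro z hz
    by_cases hzF : z ∈ F
    · exact Or.inr hzF
    · exact Or.inl (ZFSet.mem_sep.2 ⟨hz, hzF⟩)
  have hmY : ∀ a : ℕ, AA X0 M G a ∈ Y → a ∉ E := by
    intro a ha haE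
    exact (ZFSet.mem_sep.1 ha).2 ((hmF _).2 ⟨a, haE, rfl⟩)
  obtain ⟨i, j, hi, hj, hij, hiY, hjY⟩ := not_fi_sub hM hG hYA hYinf E
  have hpr : ({AA X0 M G i, AA X0 M G j} : ZFSet.{0}) ∈ pairs (AS X0 M G) :=
    mem_pairs.2 ⟨_, hYA hiY, _, hYA hjY, fun h => hij ((AA_inj hM hX hG).1 h), rfl⟩
  obtain ⟨w, hw, -⟩ := hcf.2 _ hpr
  obtain ⟨k, hk, rfl⟩ := mem_nat.1 (ZFSet.pair_mem_prod.1 (hcf.1 hw)).2
  refine ⟨Y, hYN, hYA, infinite_of hYinf, nat k, fun x hx y hy hxy => ?_⟩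
  obtain ⟨i', rfl⟩ := mem_AS.1 (hYA hx)
  obtain ⟨j', rfl⟩ := mem_AS.1 (hYA hy)
  obtain ⟨φ, ⟨s, hs⟩, h2, h3, h4⟩ := exists_move E hi hj (hmY i' hx) (hmY j' hy) hij
    (fun h => hxy (by rw [h]))
  have h5 := he k φ (gp_fin hM hX hs) (fun _ => rfl) (fun a ha => h2 a (hEk' k hk a ha))
    ![i, j] hw
  have h6 : pair {AA X0 M G (φ i), AA X0 M G (φ j)} (nat k) ∈ c := h5
  rwa [h3, h4] at h6

theorem not_crt : ¬ CRT (NN X0 M G) (AS X0 M G) := by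
  classical
  have hX := in_X0 hM
  have hN : IsZF (NN X0 M G) := zfN hM hX hG
  have hB := hN.base
  have hA : AS X0 M G ∈ NN X0 M G := AS_mem hM hX hG
  intro h
  have hC : ({∅} : ZFSet.{0}) ∈ NN X0 M G := hN.single_mem hN.empty_mem
  obtain ⟨Y, hY, hYA, hinf, r, hr, hlin, -⟩ := h {∅} hC
    (ZFSet.prod (pairs (AS X0 M G)) {∅}) (hN.prod_mem (pairs_mem hN hA) hC) ⟨fun z hz => hz, by
      intro z hz
      refine ⟨∅, ZFSet.pair_mem_prod.2 ⟨hz, by simp⟩, fun w hw => ?_⟩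
      exact ZFSet.mem_singleton.1 (ZFSet.pair_mem_prod.1 hw).2⟩
  obtain ⟨e, he⟩ := hom hM hX hG (Q := fun v : Fin 2 → ZFSet.{0} => pair (v 0) (v 1) ∈ r)
    (Dfn.mem (hB.pair' (DfnF.proj 0) (DfnF.proj 1)) (DfnF.const hr))
  obtain ⟨i, j, hi, hj, hij, hiY, hjY⟩ := not_fi_sub hM hG hYA (not_fi hN hY hinf) e
  have key : ∀ i j : ℕ, i ∉ e → j ∉ e → i ≠ j → AA X0 M G i ∈ Y → AA X0 M G j ∈ Y →
      pair (AA X0 M G i) (AA X0 M G j) ∈ r → False := by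
    intro i j hi hj hij hiY hjY h1
    obtain ⟨φ, ⟨s, hs⟩, h2, h3, h4⟩ := exists_move e hi hj hj hi hij hij.symm
    have h5 : pair (AA X0 M G (φ i)) (AA X0 M G (φ j)) ∈ r :=
      he φ (gp_fin hM hX hs) (fun _ => rfl) h2 ![i, j] h1
    rw [h3, h4] at h5
    exact hlin.irrefl _ hiY (hlin.trans _ hiY _ hjY _ hiY h1 h5)
  rcases hlin.total _ hiY _ hjY (fun h => hij ((AA_inj hM hX hG).1 h)) with h1 | h1
  · exact key i j hi hj hij hiY hjY h1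
  · exact key j i hj hi hij.symm hjY hiY h1

end mdl

/-- There is a countable transitive model of ZFC. -/
theorem exists_ctm : ∃ M : Set ZFSet.{0}, M.Countable ∧ IsZFC M := by
  obtain ⟨π, -, -⟩ := exists_pkg' (P := Unit) ∅ Set.countable_empty ()
  exact ⟨π.V, π.countable_W.mono π.V_subset_W, π.isZFC_V⟩

theorem main {M : Set ZFSet.{0}} (hM : IsZF M) (hc : M.Countable) :
    ∃ N : Set ZFSet.{0}, M ⊆ N ∧ N.Countable ∧ IsZF N ∧
      (∀ x : ZFSet.{0}, x.IsOrdinal → (x ∈ N ↔ x ∈ M)) ∧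
      ∃ A ∈ N, ¬ CRT N A ∧ ∀ n, RT N n A := by
  have hX := in_X0 hM
  obtain ⟨G, hG, -⟩ := exists_gen hc (forcing_PP hM hX) (empty_PP hM)
  refine ⟨NN X0 M G, subN hM hX hG, ?_, zfN hM hX hG, ?_, AS X0 M G, AS_mem hM hX hG,
    not_crt hM hG, ramsey hM hG⟩
  · exact (hc.mono fun x hx => hx.1).image _
  · exact fun x hx => Pool.Agent.H158_AM.ord_nm hM (forcing_PP hM hX) (symSys hM hX) hG x hx

end Pool.Agent.H158_HM.Ram
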